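import Pool.Agent.Lib.MP_6b2d39_agVe.FinF

/-!
The description of the possible counterexamples.
-/

set_option autoImplicit false

namespace Pool.Agent.Lib.MP_6b2d39_agVe

open Pool.Agent.Lib.MP_6b2d39_ag Pool.Agent.Lib.MP_6b2d39_agWin Pool.Agent.Lib.MP_6b2d39_agCr
  Pool.Agent.Lib.MP_6b2d39_agHal Pool.Agent.Lib.MP_6b2d39_agNw Pool.Agent.Lib.MP_6b2d39_agRef

private theorem at_card (k h : ℕ) :
    (Finset.univ.filter (fun i : Fin h => (i : ℕ) < k)).card ≤ k := by
  have h1 : (Finset.univ.filter (fun i : Fin h => (i : ℕ) < k)).map Fin.valEmbedding ⊆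
      Finset.range k := by
    intro x hx
    rw [Finset.mem_map] at hx
    obtain ⟨i, hi, rfl⟩ := hx
    rw [Finset.mem_filter] at hi
    exact Finset.mem_range.2 hi.2
  have h2 := Finset.card_le_card h1
  rwa [Finset.card_map, Finset.card_range] at h2

/-- at most `k` multiplicities are larger than the `k + 1`-st -/
private theorem at_big {h : ℕ} {n : Fin h → ℕ} {σ : Equiv.Perm (Fin h)}
    (hσ : Antitone (fun i => n (σ i))) (j : Fin h) :
    Finset.univ.filter (fun i => n (σ j) < n i) ⊆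
      (Finset.univ.filter (fun i : Fin h => (i : ℕ) < (j : ℕ))).map σ.toEmbedding := by
  intro i hi
  rw [Finset.mem_filter] at hi
  obtain ⟨x, rfl⟩ := σ.surjective i
  rw [Finset.mem_map]
  refine ⟨x, ?_, rfl⟩
  rw [Finset.mem_filter]
  refine ⟨Finset.mem_univ _, ?_⟩
  by_contra hcon
  have h1 : n (σ x) ≤ n (σ j) := hσ (a := j) (b := x) (by
    show (j : ℕ) ≤ (x : ℕ)
    omega)
  omega

private theorem at_big_card {h : ℕ} {n : Fin h → ℕ} {σ : Equiv.Perm (Fin h)}
    (hσ : Antitone (fun i => n (σ i))) (j : Fin h) :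
    (Finset.univ.filter (fun i => n (σ j) < n i)).card ≤ j := by
  refine (Finset.card_le_card (at_big hσ j)).trans ?_
  rw [Finset.card_map]
  exact at_card _ _

theorem all_f : ∃ C : ℝ, ∀ (h d : ℕ) (m : Fin h → ℕ), 3 ≤ h →
    General (fun P => IsSpecial d m P ↔ IsMinusOneSpecial d m P) ∨
      ∃ (e : ℕ) (n : Fin h → ℕ), Relation.ReflTransGen CremonaStep (d, m) (e, n) ∧
        (∀ i, n i ≤ m i) ∧ Reduced e n ∧ General (fun P => IsSpecial e n P) ∧
        ∀ σ : Equiv.Perm (Fin h), Antitone (fun i => n (σ i)) →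
          ∃ (i1 i9 i10 : Fin h) (A s t : ℕ), (i1 : ℕ) = 0 ∧ (i9 : ℕ) = 8 ∧ (i10 : ℕ) = 9 ∧
            e ^ 2 = ∑ i : Fin h, (if (i : ℕ) < 9 then n (σ i) ^ 2 else 0) + A ∧
            3 * e = ∑ i : Fin h, (if (i : ℕ) < 9 then n (σ i) else 0) + s ∧
            t = n (σ i10) ∧ 1 ≤ t ∧ 1 ≤ s ∧ e ≤ 3 * A ∧ A < 4000000 * t ^ 3 ∧
            -(15 * (t : ℤ) ^ 2) < vd e n ∧ vd e n < 7 * (t : ℤ) ^ 2 ∧
            (-(3 * (n (σ i9) : ℤ) ^ 2) < vd e n ∧ vd e n < 6 * (n (σ i9) : ℤ) ^ 2) ∧
            (t ≤ s → -(3 * (t : ℤ) ^ 2) < vd e n ∧ vd e n < 6 * (t : ℤ) ^ 2) ∧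
            (e = n (σ i1) + 2 * n (σ i9) ∨
              s < ∑ i : Fin h, (if 9 ≤ (i : ℕ) ∧ Odd (i : ℕ) then n (σ i) else 0)) ∧
            ∀ r : ℕ, C * r ≤ s → C * r + n (σ i1) ≤ e →
              (t ≤ r → |((vd e n : ℤ) : ℝ)| <
                C * (((r : ℝ) * t ^ 2 / A) ^ 2 + t + ((A : ℝ) / r) ^ (3 / 4 : ℝ)) *
                  Real.log ((A : ℝ) / t ^ 2 + 2) ^ 3) ∧
              ∀ a : ℕ, 1 ≤ a → a ≤ r → C * a * (r : ℝ) ^ 2 ≤ A → ∃ k : ℕ, a ≤ k ∧ k < t ∧
                r * ∑ i ∈ Finset.univ.filter (fun i => n i ≤ k), n i ^ 2 < k * A := by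
  obtain ⟨C, hC⟩ := bad_f
  refine ⟨C, fun h d m hh => ?_⟩
  rcases hh_main hh d m with h1 | ⟨e, n, hr, hred, hbad⟩
  · exact Or.inl h1
  · refine Or.inr ⟨e, n, hr, fun i => le_of_reach hr i, hred, general_special_of_bad hbad, ?_⟩
    intro σ hσ
    obtain ⟨i1, i10, A, s, t, k1, k2, k3, k4, k5, k6, k7, k8, k9, -, k11⟩ :=
      hC h e n hh hred hbad σ hσ
    have h10 : 10 ≤ h := by have := i10.2; omega
    obtain ⟨i9, hi9⟩ : ∃ i9 : Fin h, (i9 : ℕ) = 8 := ⟨⟨8, by omega⟩, rfl⟩
    have c10 : (Finset.univ.filter (fun i => t < n i)).card ≤ 9 := by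
      have := at_big_card hσ i10
      rw [k2, ← k3] at this
      exact this
    have c9 : (Finset.univ.filter (fun i => n (σ i9) < n i)).card ≤ 8 := by
      have := at_big_card hσ i9
      rw [hi9] at this
      exact this
    have h98 : n (σ i10) ≤ n (σ i9) := hσ (a := i9) (b := i10) (by
      show (i9 : ℕ) ≤ (i10 : ℕ)
      omega)
    have w10 : -(15 * (t : ℤ) ^ 2) < vd e n ∧ vd e n < 7 * (t : ℤ) ^ 2 := by
      by_contra hcon
      apply hbad
      apply window_ten hh hred k4 c10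
      by_contra hne
      push Not at hne
      exact hcon hne
    have w9 : -(3 * (n (σ i9) : ℤ) ^ 2) < vd e n ∧ vd e n < 6 * (n (σ i9) : ℤ) ^ 2 := by
      by_contra hcon
      apply hbad
      apply window_nine hh hred (μ := n (σ i9)) (by omega) (Or.inl c9)
      by_contra hne
      push Not at hne
      exact hcon hne
    have ws : t ≤ s → -(3 * (t : ℤ) ^ 2) < vd e n ∧ vd e n < 6 * (t : ℤ) ^ 2 := by
      intro hts
      by_contra hcon
      apply hbad
      have hc : (Finset.univ.filter (fun i => t < n i)).card ≤ 8 ∨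
          ((Finset.univ.filter (fun i => t < n i)).card = 9 ∧
            ∑ i ∈ Finset.univ.filter (fun i => t < n i), n i + t ≤ 3 * e) := by
        rcases Nat.lt_or_ge (Finset.univ.filter (fun i => t < n i)).card 9 with h2 | h2
        · exact Or.inl (by omega)
        · refine Or.inr ⟨by omega, ?_⟩
          have h3 : ∑ i ∈ Finset.univ.filter (fun i => t < n i), n i ≤
              ∑ i : Fin h, (if (i : ℕ) < 9 then n (σ i) else 0) := by
            rw [← Finset.sum_filter]
            have h4 := at_big hσ i10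
            rw [k2, ← k3] at h4
            refine (Finset.sum_le_sum_of_subset h4).trans ?_
            rw [Finset.sum_map]
            rfl
          omega
      apply window_nine hh hred k4 hc
      by_contra hne
      push Not at hne
      exact hcon hne
    refine ⟨i1, i9, i10, A, s, t, k1, hi9, k2, k5, k6, k3, k4, k7, k8, k9, w10.1, w10.2, w9, ws,
      ?_, ?_⟩
    · rcases reflect_bad hh hred hbad σ hσ with ⟨i, j, hi, hj, hij⟩ | h2
      · left
        have e1 : i = i1 := Fin.ext (by rw [hi, k1])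
        have e2 : j = i9 := Fin.ext (by rw [hj, hi9])
        rw [hij, e1, e2]
      · right
        have h3 : ∑ i : Fin h, (if (i : ℕ) < 9 ∨ Odd (i : ℕ) then n (σ i) else 0) =
            ∑ i : Fin h, (if (i : ℕ) < 9 then n (σ i) else 0) +
              ∑ i : Fin h, (if 9 ≤ (i : ℕ) ∧ Odd (i : ℕ) then n (σ i) else 0) := by
          rw [← Finset.sum_add_distrib]
          refine Finset.sum_congr rfl fun i _ => ?_
          rcases Nat.lt_or_ge (i : ℕ) 9 with h4 | h4
          · rw [if_pos (Or.inl h4), if_pos h4, if_neg (by omega), add_zero]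
          · rw [if_neg (by omega : ¬ (i : ℕ) < 9), zero_add]
            by_cases h5 : Odd (i : ℕ)
            · rw [if_pos (Or.inr h5), if_pos ⟨h4, h5⟩]
            · rw [if_neg (by
                rintro (h6 | h6)
                · omega
                · exact h5 h6), if_neg (fun h6 => h5 h6.2)]
        omega
    · intro r hs hg
      obtain ⟨h2, h3⟩ := k11 r hs hg
      exact ⟨fun htr => (h2 _ htr rfl).1, h3⟩

end Pool.Agent.Lib.MP_6b2d39_agVe
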