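import Pool.Agent.Lib.MP_6b2d39_agVe.FillV
import Pool.Agent.Lib.MP_6b2d39_agUe.BigM

/-!
The exact arrangement, all scales, for rows whose slopes are `Q` at the beginning and at least `Q / 2` later.

PROOF. As `ar_m` (`Ue/ArM.lean`, see its docstring; its model is `ar_e` in `Ue/ArE.lean`): `big_m` with `B = A + 2`,
`v0 = ∑ R - ms m J - ms m O`, `-z ≤ v0 ≤ 0`, `y = T`, `D = R`; then `∑ D' = v0 + ms m J ≥ (2 A + 2) z` and `D' c ≤ z`, so `y' ≥ 2 A + 2`;
`fill_v` with `Q := (Q + 1) / 2`, `Q' := Q` for `J`, `D'`, `y'` (`D' c = R c` for `c < A + 2`; the slopes of `D'` are at least those of `R`).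
-/

set_option autoImplicit false

namespace Pool.Agent.Lib.MP_6b2d39_agVe

open Pool.Agent.Lib.MP_6b2d39_agArr Pool.Agent.Lib.MP_6b2d39_agUn Pool.Agent.Lib.MP_6b2d39_agUe

theorem ar_mv {ι : Type} [DecidableEq ι] {A z Q T : ℕ} {R : ℕ → ℤ} {m : ι → ℕ} {J O : Finset ι}
    (hA : 1 ≤ A) (hQ : 18 * A ≤ Q) (hz : 1 ≤ z) (hT : 1 ≤ T)
    (hR0 : R 0 ≤ z) (hR1 : ∀ c < A, R c - R (c + 1) = Q)
    (hR3 : ∀ c, c + 1 < T → (Q : ℤ) ≤ 2 * (R c - R (c + 1))) (hR4 : 1 ≤ R (T - 1))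
    (hJO : Disjoint J O) (hJ : ∀ i ∈ J, m i ≤ A)
    (hs1 : ∑ c ∈ Finset.range T, R c ≤ ms m J + ms m O)
    (hs2 : ms m J + ms m O ≤ ∑ c ∈ Finset.range T, R c + z)
    (hm1 : (2 * (A : ℤ) + 3) * z ≤ ms m J)
    (hm2 : ∀ j ∈ O, ((A : ℤ) + 3 + m j) * z ≤ ms m (J ∪ O.filter (fun i => m i < m j))) :
    Cert m (J ∪ O) T R := by
  have hz0 : (0 : ℤ) < z := by exact_mod_cast hz
  have hms : ms m (J ∪ O) = ms m J + ms m O := Finset.sum_union hJO
  obtain ⟨y, D, hyT, hI, hS, hC⟩ := big_m (R := R) (m := m)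
    (v0 := ∑ c ∈ Finset.range T, R c - ms m J - ms m O) (B := A + 2) (z := z) (Q := Q)
    (by omega) hz (by omega) (J := J) O hJO (fun j hj => by
      have h1 := hm2 j hj
      have h2 : (((A + 2 : ℕ) : ℤ) + m j) * z = ((A : ℤ) + 3 + m j) * z - z := by
        push_cast
        ring
      rw [h2]
      linarith) T R
    ⟨fun _ _ => rfl, hR3, hT, hR4, hR0, by rw [hms]; ring⟩
  have hle' : ∀ c, c < y → D c ≤ z := by
    intro c
    induction c with
    | zero => intro _; exact hI.e4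
    | succ c ih =>
      intro hc
      have h1 := ih (by omega)
      have h2 := hI.e1 c hc
      have h3 : (0 : ℤ) ≤ Q := by positivity
      linarith
  have hy : 2 * A + 2 ≤ y := by
    have h1 : ∑ c ∈ Finset.range y, D c ≤ y * z := by
      have := Finset.sum_le_card_nsmul (Finset.range y) D z fun c hc => hle' c (Finset.mem_range.1 hc)
      rwa [Finset.card_range, nsmul_eq_mul] at this
    have h2 : (2 * (A : ℤ) + 2) * z ≤ y * z := by
      rw [hI.e5] at h1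
      have h4 : (2 * (A : ℤ) + 3) * z = (2 * (A : ℤ) + 2) * z + z := by ring
      linarith
    have h3 : 2 * (A : ℤ) + 2 ≤ y := le_of_mul_le_mul_right h2 hz0
    exact_mod_cast h3
  refine hC (fill_v (A := A) (Q := (Q + 1) / 2) (Q' := Q) hA (by omega) hy hJ (fun b hb => ?_)
      (fun b hb => ?_) ?_ hI.e3 ?_)
  · rw [hI.e0 b (by omega), hI.e0 (b + 1) (by omega)]
    exact hR1 b hb
  · have h1 := hR3 b (by omega)
    have h2 := hS b (by omega)
    omega
  · have h1 := hI.e1 (y - 2) (by omega)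
    have h2 : y - 2 + 1 = y - 1 := by omega
    rw [h2] at h1
    omega
  · rw [hI.e5]
    linarith

end Pool.Agent.Lib.MP_6b2d39_agVe
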