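import Pool.Agent.Lib.MP_6b2d39_agVe.ArMV

/-!
The exact arrangement, all scales, no upper bound for the mass.

PROOF. Strong induction on `∑ i ∈ J, m i` (for all `m`). If all `m j ≤ A` (`j ∈ J`): `(2 A + 3) z ≤ ∑ R ≤ T z` (the rows decrease from
`R 0 ≤ z`) gives `2 A + 2 ≤ T`, `fill_v` with `D = R`, `y = T` (`Q := (Q + 1) / 2`, `Q' := Q`). Otherwise let `j ∈ J` have the largest `m j > A`.
(a) If `∑ R + m j ≤ ms m J`: put `m' = Function.update m j (m j - 1)`, `ms m' J = ms m J - m j ≥ ∑ R`; for `k ≥ A` with `k < m' j'` for some `j' ∈ J`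
the largest `m j` is `> k`, so `m' = m` on `{m ≤ k}` and `{m ≤ k} ⊆ {m' ≤ k}`: the hypothesis `hm` holds for `m'`; a `Cert` for `m'` is one for `m` (`m' ≤ m`).
(b) Otherwise `ms m J < ∑ R + m j`. `m j ≤ z`: `hm` with `k = m j - 1` gives `m j * z ≤ ms m {m i ≤ m j - 1} ≤ ms m J - m j (m j + 1) / 2 ≤ ∑ R ≤ T z`,
so `m j ≤ T ≤ R 0 ≤ z` (the rows decrease by at least one and `R (T - 1) ≥ 1`). `ar_mv` with `J := {i | m i ≤ A}`, `O := {i | A < m i}`:
`hm1` from `hm` with `k = A`, `hm2` from `hm` with `k = m j - 1` (`J ∪ O.filter (m i < m j) = {m i ≤ m j - 1}`).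
-/

set_option autoImplicit false

namespace Pool.Agent.Lib.MP_6b2d39_agVe

open Pool.Agent.Lib.MP_6b2d39_agArr Pool.Agent.Lib.MP_6b2d39_agUn Pool.Agent.Lib.MP_6b2d39_agUe

private theorem arv_rows {Q T : ℕ} {R : ℕ → ℤ} (hQ : 2 ≤ Q) (hT : 1 ≤ T)
    (hR3 : ∀ c, c + 1 < T → (Q : ℤ) ≤ 2 * (R c - R (c + 1))) (hR4 : 1 ≤ R (T - 1)) :
    (T : ℤ) ≤ R 0 ∧ ∀ c, c < T → R c ≤ R 0 := by
  have hQ2 : (2 : ℤ) ≤ Q := by exact_mod_cast hQ
  have hstep : ∀ c, c + 1 < T → R (c + 1) + 1 ≤ R c := by
    intro c hc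
    have := hR3 c hc
    linarith
  have hle : ∀ c, c < T → R c + c ≤ R 0 := by
    intro c
    induction c with
    | zero => intro _; simp
    | succ c ih =>
      intro hc
      have h1 := ih (by omega)
      have h2 := hstep c hc
      push_cast
      linarith
  refine ⟨?_, fun c hc => ?_⟩
  · have h1 := hle (T - 1) (by omega)
    have h2 : ((T - 1 : ℕ) : ℤ) = (T : ℤ) - 1 := by
      rw [Nat.cast_sub hT]
      simp
    rw [h2] at h1
    linarith
  · have h1 := hle c hc
    have h2 : (0 : ℤ) ≤ c := by positivity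
    linarith

private theorem arv_mono {ι : Type} {m m' : ι → ℕ} {J : Finset ι} {n : ℕ} {D : ℕ → ℤ}
    (h : ∀ j ∈ J, m' j ≤ m j) (hC : Cert m' J n D) : Cert m J n D := by
  obtain ⟨e, p, he⟩ := hC
  refine ⟨e, p, fun b hb => (he b hb).trans (Finset.sum_le_sum fun j hj => ?_)⟩
  have h1 : m' j - rk n e (p j) b ≤ m j - rk n e (p j) b := Nat.sub_le_sub_right (h j hj) _
  exact_mod_cast h1

private theorem arv_tri (a : ℕ) (ha : 1 ≤ a) :
    ((a * (a + 1) / 2 : ℕ) : ℤ) = (((a - 1) * ((a - 1) + 1) / 2 : ℕ) : ℤ) + a := by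
  obtain ⟨b, rfl⟩ : ∃ b, a = b + 1 := ⟨a - 1, by omega⟩
  have h1 : (b + 1) * (b + 1 + 1) / 2 = b * (b + 1) / 2 + (b + 1) := by
    have h2 : (b + 1) * (b + 1 + 1) = b * (b + 1) + (b + 1) * 2 := by ring
    rw [h2, Nat.add_mul_div_right _ _ (by norm_num)]
  have h3 : b + 1 - 1 = b := by omega
  rw [h3, h1]
  push_cast
  ring

private theorem arv_msub {ι : Type} [DecidableEq ι] {m : ι → ℕ} {J J' : Finset ι} (h : J ⊆ J') :
    ms m J ≤ ms m J' :=
  Finset.sum_le_sum_of_subset_of_nonneg h fun _ _ _ => by positivity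

private theorem arv_aux {ι : Type} [DecidableEq ι] {A z Q T : ℕ} {R : ℕ → ℤ} {J : Finset ι}
    (hA : 1 ≤ A) (hQ : 18 * A ≤ Q) (hz : 1 ≤ z) (hT : 1 ≤ T)
    (hR0 : R 0 ≤ z) (hR1 : ∀ c < A, R c - R (c + 1) = Q)
    (hR3 : ∀ c, c + 1 < T → (Q : ℤ) ≤ 2 * (R c - R (c + 1))) (hR4 : 1 ≤ R (T - 1))
    (h0 : (2 * (A : ℤ) + 3) * z ≤ ∑ c ∈ Finset.range T, R c) (n : ℕ) :
    ∀ m : ι → ℕ, ∑ i ∈ J, m i = n →
    ∑ c ∈ Finset.range T, R c ≤ ms m J →
    (∀ k : ℕ, A ≤ k → (∃ j ∈ J, k < m j) →
      ((A : ℤ) + 4 + k) * z ≤ ms m (J.filter (fun i => m i ≤ k))) →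
    Cert m J T R := by
  have hz0 : (0 : ℤ) < z := by exact_mod_cast hz
  obtain ⟨hT0, hle⟩ := arv_rows (by omega) hT hR3 hR4
  have hsumT : ∑ c ∈ Finset.range T, R c ≤ T * z := by
    have := Finset.sum_le_card_nsmul (Finset.range T) R z
      fun c hc => (hle c (Finset.mem_range.1 hc)).trans hR0
    rwa [Finset.card_range, nsmul_eq_mul] at this
  induction n using Nat.strong_induction_on with
  | _ n ih =>
  intro m hn hs hm
  by_cases hall : ∀ j ∈ J, m j ≤ A
  · have hy : 2 * A + 3 ≤ T := by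
      have h2 : (2 * (A : ℤ) + 3) * z ≤ T * z := h0.trans hsumT
      have h3 : 2 * (A : ℤ) + 3 ≤ T := le_of_mul_le_mul_right h2 hz0
      exact_mod_cast h3
    refine fill_v (A := A) (Q := (Q + 1) / 2) (Q' := Q) hA (by omega) (by omega) hall hR1
      (fun b hb => ?_) ?_ hR4 hs
    · have h1 := hR3 b (by omega)
      have h2 : (((Q + 1) / 2 : ℕ) : ℤ) = ((Q : ℤ) + 1) / 2 := by
        push_cast
        rfl
      rw [h2]
      omega
    · have h1 := hR3 (T - 2) (by omega)
      have h3 : T - 2 + 1 = T - 1 := by omega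
      rw [h3] at h1
      have h2 : (((Q + 1) / 2 : ℕ) : ℤ) = ((Q : ℤ) + 1) / 2 := by
        push_cast
        rfl
      rw [h2]
      omega
  · push Not at hall
    obtain ⟨j0, hj0, hj0A⟩ := hall
    obtain ⟨j, hj, hmax⟩ := Finset.exists_max_image J m ⟨j0, hj0⟩
    have hjA : A < m j := lt_of_lt_of_le hj0A (hmax j0 hj0)
    by_cases hbig : ∑ c ∈ Finset.range T, R c + m j ≤ ms m J
    · -- lower the multiplicity of `j`
      have hne : ∀ i, i ≠ j → Function.update m j (m j - 1) i = m i := fun i hi => by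
        simp [Function.update_of_ne hi]
      have heq : Function.update m j (m j - 1) j = m j - 1 := by simp
      have hle' : ∀ i, Function.update m j (m j - 1) i ≤ m i := by
        intro i
        by_cases hi : i = j
        · subst hi
          rw [heq]
          omega
        · rw [hne i hi]
      have hsum : ∑ i ∈ J, Function.update m j (m j - 1) i < n := by
        rw [← hn]
        refine Finset.sum_lt_sum (fun i _ => hle' i) ⟨j, hj, ?_⟩
        rw [heq]
        omega
      have hms : ms (Function.update m j (m j - 1)) J = ms m J - m j := by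
        unfold ms
        rw [← Finset.add_sum_erase J _ hj, ← Finset.add_sum_erase J _ hj, heq]
        have h1 := arv_tri (m j) (by omega)
        have h2 : ∑ x ∈ J.erase j, (((Function.update m j (m j - 1) x) *
            ((Function.update m j (m j - 1) x) + 1) / 2 : ℕ) : ℤ) =
            ∑ x ∈ J.erase j, ((m x * (m x + 1) / 2 : ℕ) : ℤ) := by
          refine Finset.sum_congr rfl fun x hx => ?_
          rw [hne x (Finset.ne_of_mem_erase hx)]
        rw [h2, h1]
        ring
      refine arv_mono (m' := Function.update m j (m j - 1)) (fun i _ => hle' i)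
        (ih _ hsum _ rfl ?_ ?_)
      · rw [hms]
        linarith
      · rintro k hk ⟨j', hj', hkj'⟩
        have h1 : k < m j' := lt_of_lt_of_le hkj' (hle' j')
        have h2 : k < m j := lt_of_lt_of_le h1 (hmax j' hj')
        refine (hm k hk ⟨j', hj', h1⟩).trans ?_
        have h3 : ms m (J.filter (fun i => m i ≤ k)) =
            ms (Function.update m j (m j - 1)) (J.filter (fun i => m i ≤ k)) := by
          unfold ms
          refine Finset.sum_congr rfl fun x hx => ?_
          have h4 : x ≠ j := by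
            rintro rfl
            have := (Finset.mem_filter.1 hx).2
            omega
          rw [hne x h4]
        rw [h3]
        refine arv_msub fun x hx => ?_
        rw [Finset.mem_filter] at hx ⊢
        exact ⟨hx.1, (hle' x).trans hx.2⟩
    · push Not at hbig
      have h1 := hm (m j - 1) (by omega) ⟨j, hj, by omega⟩
      have h2 : ms m (J.filter (fun i => m i ≤ m j - 1)) + ((m j * (m j + 1) / 2 : ℕ) : ℤ) ≤
          ms m J := by
        have h3 : j ∉ J.filter (fun i => m i ≤ m j - 1) := by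
          intro h
          have := (Finset.mem_filter.1 h).2
          omega
        have h4 : ms m (insert j (J.filter (fun i => m i ≤ m j - 1))) ≤ ms m J := by
          refine arv_msub fun x hx => ?_
          rcases Finset.mem_insert.1 hx with rfl | hx
          · exact hj
          · exact (Finset.mem_filter.1 hx).1
        unfold ms at h4 ⊢
        rw [Finset.sum_insert h3] at h4
        linarith
      have h5 : (m j : ℤ) ≤ ((m j * (m j + 1) / 2 : ℕ) : ℤ) := by
        have h6 := arv_tri (m j) (by omega)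
        have h7 : (0 : ℤ) ≤ (((m j - 1) * ((m j - 1) + 1) / 2 : ℕ) : ℤ) := by positivity
        linarith
      have hcast : ((m j - 1 : ℕ) : ℤ) = (m j : ℤ) - 1 := by
        rw [Nat.cast_sub (by omega)]
        simp
      have h8 : ((A : ℤ) + 3 + m j) * z < T * z := by
        rw [hcast] at h1
        have h9 : ((A : ℤ) + 4 + ((m j : ℤ) - 1)) * z = ((A : ℤ) + 3 + m j) * z := by ring
        rw [h9] at h1
        linarith
      have h10 : (A : ℤ) + 3 + m j < T := lt_of_mul_lt_mul_right h8 hz0.le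
      have h11 : (m j : ℤ) ≤ z := by
        have : (0 : ℤ) ≤ A := by positivity
        linarith
      have hJO : J.filter (fun i => m i ≤ A) ∪ J.filter (fun i => A < m i) = J := by
        ext x
        simp only [Finset.mem_union, Finset.mem_filter]
        constructor
        · rintro (h | h)
          · exact h.1
          · exact h.1
        · intro h
          rcases Nat.lt_or_ge A (m x) with h' | h'
          · exact Or.inr ⟨h, h'⟩
          · exact Or.inl ⟨h, h'⟩
      have hdis : Disjoint (J.filter (fun i => m i ≤ A)) (J.filter (fun i => A < m i)) := by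
        rw [Finset.disjoint_left]
        intro x hx hx'
        have a1 := (Finset.mem_filter.1 hx).2
        have a2 := (Finset.mem_filter.1 hx').2
        omega
      have hmsJ : ms m (J.filter (fun i => m i ≤ A)) + ms m (J.filter (fun i => A < m i)) =
          ms m J := by
        have : ms m (J.filter (fun i => m i ≤ A) ∪ J.filter (fun i => A < m i)) =
            ms m (J.filter (fun i => m i ≤ A)) + ms m (J.filter (fun i => A < m i)) :=
          Finset.sum_union hdis
        rw [hJO] at this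
        exact this.symm
      rw [← hJO]
      refine ar_mv (A := A) (z := z) (Q := Q) hA hQ hz hT hR0 hR1 hR3 hR4 hdis
        (fun i hi => (Finset.mem_filter.1 hi).2) (by rw [hmsJ]; exact hs)
        (by rw [hmsJ]; linarith) ?_ ?_
      · have h12 := hm A le_rfl ⟨j, hj, hjA⟩
        have h13 : ((A : ℤ) + 4 + A) * z = (2 * (A : ℤ) + 3) * z + z := by ring
        rw [h13] at h12
        linarith
      · intro j' hj'
        obtain ⟨hj'J, hj'A⟩ := Finset.mem_filter.1 hj'
        have h12 := hm (m j' - 1) (by omega) ⟨j', hj'J, by omega⟩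
        have hcast' : ((m j' - 1 : ℕ) : ℤ) = (m j' : ℤ) - 1 := by
          rw [Nat.cast_sub (by omega)]
          simp
        rw [hcast'] at h12
        have h13 : ((A : ℤ) + 4 + ((m j' : ℤ) - 1)) * z = ((A : ℤ) + 3 + m j') * z := by ring
        rw [h13] at h12
        refine h12.trans (arv_msub fun x hx => ?_)
        obtain ⟨hxJ, hx1⟩ := Finset.mem_filter.1 hx
        simp only [Finset.mem_union, Finset.mem_filter]
        rcases Nat.lt_or_ge A (m x) with h' | h'
        · exact Or.inr ⟨⟨hxJ, h'⟩, by omega⟩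
        · exact Or.inl ⟨hxJ, h'⟩

theorem ar_v {ι : Type} [DecidableEq ι] {A z Q T : ℕ} {R : ℕ → ℤ} {m : ι → ℕ} {J : Finset ι}
    (hA : 1 ≤ A) (hQ : 18 * A ≤ Q) (hz : 1 ≤ z) (hT : 1 ≤ T)
    (hR0 : R 0 ≤ z) (hR1 : ∀ c < A, R c - R (c + 1) = Q)
    (hR3 : ∀ c, c + 1 < T → (Q : ℤ) ≤ 2 * (R c - R (c + 1))) (hR4 : 1 ≤ R (T - 1))
    (h0 : (2 * (A : ℤ) + 3) * z ≤ ∑ c ∈ Finset.range T, R c)
    (hs : ∑ c ∈ Finset.range T, R c ≤ ms m J)
    (hm : ∀ k : ℕ, A ≤ k → (∃ j ∈ J, k < m j) →
      ((A : ℤ) + 4 + k) * z ≤ ms m (J.filter (fun i => m i ≤ k))) :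
    Cert m J T R :=
  arv_aux hA hQ hz hT hR0 hR1 hR3 hR4 h0 _ m rfl hs hm

end Pool.Agent.Lib.MP_6b2d39_agVe
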