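import Pool.Agent.Lib.MP_6b2d39_agVw.RowsW
import Pool.Agent.Lib.MP_6b2d39_agVn.CurE
import Pool.Agent.Lib.MP_6b2d39_agVe.ArV
import Pool.Agent.Lib.MP_6b2d39_agUn.EmpT

/-!
Light points kill the system `a`: exact, all scales.

PROOF. As `Vw/CertW.lean` (`certW_setup`): `exists_cur` for `c`, `d = 3 • c`, `z = (2 pr a d + sg d - pr d d) / 2` (even, from `om_chi`),
`z ≤ pr a d` (`sg d ≤ pr d d`), `z ≥ 1` (`pr a d ≥ (3 A + 1) pr d d`), `rows_w` with `M := A` (`64 A z ≤ 64 A pr a d ≤ pr a a`) gives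
`RwA A z Q T r`, `Q = pr d d ≥ 18 A`. `ar_v`: `hR1` from `a1`, `hR3 = a2`, `hR4 = a3`, `hT = a4`, `h0` from `a5` (`2 A + 3 ≤ 32 A`), `hs` from `hmass`
and the last claim of `rows_w`, `hm` from `hm` and `z ≤ pr a d` (`ms` and `mass` are the same sum up to casts, `Nat.choose_two_right`).
Then `EmpP (dgm r T) l J` (`empP_of_cert_up`), `diagram` as in `core_one` (`Vn/CoreV.lean`).
-/

open Polynomial

set_option autoImplicit false

namespace Pool.Agent.Lib.MP_6b2d39_agVe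

open Pool.Agent.Lib.MP_6b2d39_ag Pool.Agent.Lib.MP_6b2d39_agHal Pool.Agent.Lib.MP_6b2d39_agVn
  Pool.Agent.Lib.MP_6b2d39_agVw Pool.Agent.Lib.MP_6b2d39_agUn Pool.Agent.Lib.MP_6b2d39_agArr
  Pool.Agent.Lib.MP_6b2d39_agNw Pool.Agent.Lib.MP_6b2d39_agWin

private theorem certE_ms {ι : Type} (l : ι → ℕ) (J : Finset ι) :
    ms l J = ((mass l J : ℕ) : ℤ) := by
  unfold ms mass
  push_cast
  refine Finset.sum_congr rfl fun i _ => ?_
  rw [Nat.choose_two_right, Nat.add_sub_cancel, Nat.mul_comm (l i + 1) (l i)]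
  push_cast
  rfl

private theorem certE_emp {ι : Type} [Fintype ι] [DecidableEq ι] {L : ℕ} {μ : ι → ℕ} {r : ℕ → ℕ}
    {J : Finset ι} (h : Cert μ J L (fun b => (r b : ℤ))) : EmpP (dgm r L) μ J := by
  refine empP_of_cert_up (c := 0) h (fun b _ => ?_) (fun p hp => ?_)
  · rw [zero_add]
    have hsub : rowOf (dgm r L) b ⊆ Finset.range (r b) := by
      intro a ha
      unfold rowOf at ha
      rw [Finset.mem_image] at ha
      obtain ⟨p, hp, rfl⟩ := ha
      rw [Finset.mem_filter, mem_dgm] at hp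
      rw [Finset.mem_range, ← hp.2]
      exact hp.1.2
    have hc := Finset.card_le_card hsub
    rw [Finset.card_range] at hc
    exact_mod_cast hc
  · rw [mem_dgm] at hp
    exact ⟨Nat.zero_le _, by rw [zero_add]; exact hp.1⟩

theorem core_e {A : ℕ} (hA : 1 ≤ A) {c a a' : Fin 10 → ℕ} (h9 : ∃ i, i ≠ 9 ∧ 1 ≤ c i)
    (h1 : ∃ i, i ≠ 1 ∧ 1 ≤ c i) (ha : a = a' + (3 * A + 1) • (3 • c)) (hs : 1 ≤ sg a')
    (hQ : 18 * A ≤ pr (3 • c) (3 • c)) (hsg : sg (3 • c) ≤ pr (3 • c) (3 • c))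
    (hbig : 64 * A * pr a (3 • c) ≤ pr a a) {ι : Type} [Fintype ι] [DecidableEq ι]
    {l : ι → ℕ} {J : Finset ι}
    (hm : ∀ k : ℕ, A ≤ k → (∃ j ∈ J, k < l j) →
      (A + 4 + k) * pr a (3 • c) ≤ mass l (J.filter (fun i => l i ≤ k)))
    (hmass : (dg a + 2).choose 2 ≤ ∑ i, (mu a i + 1).choose 2 + mass l J) :
    ∃ (p : Fin 9 → ℂ × ℂ) (x y : ι → ℂ), ∀ F ∈ Sp (dg a + 1) p (mu a),
      (∀ i ∈ J, Cond (Finset.Icc 1 (l i)) (x i) (y i) F) → F = 0 := by
  obtain ⟨t, w, G, hG⟩ := exists_cur h9 h1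
  set d : Fin 10 → ℕ := 3 • c with hd
  have hsc : sg d = 3 * sg c := by rw [hd, sg_smul]
  have hpos := hG.pos
  have h2 : 2 ≤ sg d := by omega
  have hchi := om_chi d
  have hPQ : pr a d = pr a' d + (3 * A + 1) * pr d d := by rw [ha, pr_add, pr_smul]
  set Q : ℕ := pr d d with hQd
  set s : ℕ := sg d with hsd
  set P : ℕ := pr a d with hPd
  have hAQ : (3 * A + 1) * Q = 3 * (A * Q) + Q := by ring
  obtain ⟨z, hz⟩ : ∃ z, 2 * z + Q = 2 * P + s := by
    refine ⟨(2 * P + s - Q) / 2, ?_⟩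
    omega
  have hzP : z ≤ P := by omega
  have hz1 : 1 ≤ z := by omega
  have hbig' : 64 * A * z ≤ pr a a := le_trans (Nat.mul_le_mul_left _ hzP) hbig
  obtain ⟨T, r, hr1, hr2, hr3, hr4⟩ := rows_w hG h2 hA ha hs hz hbig'
  have hzZ : (0 : ℤ) ≤ z := by positivity
  have hzPZ : (z : ℤ) ≤ P := by exact_mod_cast hzP
  have hAZ : (1 : ℤ) ≤ A := by exact_mod_cast hA
  have hC : Cert l J T (fun b => (r b : ℤ)) := by
    refine Pool.Agent.Lib.MP_6b2d39_agVe.ar_v (A := A) (z := z) (Q := Q) hA hQ hz1 hr1.a4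
      hr1.a0.le (fun c hc => hr1.a1 c (by omega)) hr1.a2 hr1.a3 ?_ ?_ ?_
    · refine le_trans ?_ hr1.a5
      refine mul_le_mul_of_nonneg_right ?_ hzZ
      linarith
    · rw [certE_ms]
      have h3 : ∑ b ∈ Finset.range T, r b ≤ mass l J := by omega
      exact_mod_cast h3
    · intro k hk hex
      have h3 := hm k hk hex
      have h4 : (((A + 4 + k) * P : ℕ) : ℤ) ≤
          ((mass l (J.filter (fun i => l i ≤ k)) : ℕ) : ℤ) := by
        exact_mod_cast h3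
      rw [← certE_ms] at h4
      refine le_trans ?_ h4
      push_cast
      refine mul_le_mul_of_nonneg_left hzPZ ?_
      positivity
  obtain ⟨x', y', hxy⟩ := diagram (f := G) hG.irr hG.natDegree hG.dep
    (W := Sp (dg a + 1) (fun i => gam (t i)) (mu a)) (n := T) (r := r) hr2 hr3 (certE_emp hC)
  exact ⟨fun i => gam (t i), x', y', hxy⟩

end Pool.Agent.Lib.MP_6b2d39_agVe
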