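import Pool.Agent.Lib.MP_6b2d39_agVn.FinV

/-!
From nine points and light points to general points (the light points and simple points explicitly).

PROOF. The second half of the proof of `nine_exact` in `Ten/NineE.lean` (or the proof of `finish` in `Vn/FinV.lean`), with
`S = Finset.univ.map τ`, `u = (vd e n).toNat`.
-/

open Polynomial

set_option autoImplicit false

namespace Pool.Agent.Lib.MP_6b2d39_agVe

open Pool.Agent.Lib.MP_6b2d39_ag Pool.Agent.Lib.MP_6b2d39_agWin Pool.Agent.Lib.MP_6b2d39_agNw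
  Pool.Agent.Lib.MP_6b2d39_agHal Pool.Agent.Lib.MP_6b2d39_agCr

/-- the light points and `u` simple points -/
def lp {h : ℕ} (τ : Fin 9 ↪ Fin h) (u : ℕ) : Finset (Fin h ⊕ Fin u) :=
  ((Finset.univ.filter (fun l : Fin h => l ∉ Finset.univ.map τ)).map Function.Embedding.inl) ∪
    (Finset.univ : Finset (Fin u)).map Function.Embedding.inr

private theorem finE_split {h : ℕ} (S : Finset (Fin h)) (f : Fin h → ℕ) :
    ∑ l, f l = ∑ l ∈ S, f l + ∑ l ∈ Finset.univ.filter (fun l => l ∉ S), f l := by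
  rw [← Finset.sum_filter_add_sum_filter_not Finset.univ (fun l => l ∈ S) f]
  congr 1
  apply Finset.sum_congr _ (fun _ _ => rfl)
  ext l
  simp

private theorem finE_all {h u : ℕ} (τ : Fin 9 ↪ Fin h) {S : Finset (Fin h)}
    (hS : Finset.univ.map τ = S) :
    ((Finset.univ.filter (fun l : Fin h => l ∉ S)).map
      Function.Embedding.inl) ∪ (Finset.univ : Finset (Fin u)).map Function.Embedding.inr =
      (Finset.univ.filter (fun i : Fin h ⊕ Fin u => ∀ l, i ≠ Sum.inl (τ l))) := by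
  ext i
  rw [Finset.mem_union, Finset.mem_map, Finset.mem_map, Finset.mem_filter]
  constructor
  · rintro (⟨l, hl, rfl⟩ | ⟨l, -, rfl⟩)
    · refine ⟨Finset.mem_univ _, fun l' heq => ?_⟩
      rw [Finset.mem_filter] at hl
      apply hl.2
      have h1 : l = τ l' := Sum.inl_injective heq
      rw [h1, ← hS]
      exact Finset.mem_map_of_mem τ (Finset.mem_univ l')
    · refine ⟨Finset.mem_univ _, fun l' heq => ?_⟩
      simp at heq
  · rintro ⟨-, hi⟩
    rcases i with l | l
    · left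
      refine ⟨l, ?_, rfl⟩
      rw [Finset.mem_filter]
      refine ⟨Finset.mem_univ _, fun hl => ?_⟩
      rw [← hS, Finset.mem_map] at hl
      obtain ⟨l', -, h1⟩ := hl
      exact hi l' (by rw [h1])
    · right
      exact ⟨l, Finset.mem_univ _, rfl⟩

theorem finish_e {h e : ℕ} {n : Fin h → ℕ} (τ : Fin 9 ↪ Fin h)
    (hE : ∀ u : ℕ, (e + 2).choose 2 ≤ ∑ i, (n (τ i) + 1).choose 2 +
        mass (Sum.elim n (fun _ => 1) : Fin h ⊕ Fin u → ℕ) (lp τ u) →
      ∃ (p : Fin 9 → ℂ × ℂ) (x y : Fin h ⊕ Fin u → ℂ), ∀ F ∈ Sp (e + 1) p (fun i => n (τ i)),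
        (∀ i ∈ lp τ u, Cond (Finset.Icc 1 ((Sum.elim n (fun _ => 1) : Fin h ⊕ Fin u → ℕ) i))
          (x i) (y i) F) → F = 0) :
    General (fun P => (Module.finrank ℂ (curves e n P) : ℤ) = max (vd e n) 0) := by
  obtain ⟨S, hS⟩ : ∃ S : Finset (Fin h), Finset.univ.map τ = S := ⟨_, rfl⟩
  have hsumS : ∀ f : Fin h → ℕ, ∑ i ∈ S, f i = ∑ i, f (τ i) := by
    intro f
    rw [← hS, Finset.sum_map]
  set A := ∑ i, (n (τ i) + 1).choose 2 with hA
  set L := ∑ l ∈ Finset.univ.filter (fun l => l ∉ S), (n l + 1).choose 2 with hL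
  have hvd : vd e n = (((e + 2).choose 2 : ℕ) : ℤ) - (A : ℤ) - (L : ℤ) := by
    have h2 := finE_split S (fun l => (n l + 1).choose 2)
    unfold vd
    have h3 : (∑ i, ((n i + 1).choose 2 : ℤ)) = ((∑ l, (n l + 1).choose 2 : ℕ) : ℤ) := by
      push_cast
      rfl
    rw [h3, h2, hsumS (fun l => (n l + 1).choose 2), ← hA, ← hL]
    push_cast
    ring
  obtain ⟨u, hu⟩ : ∃ u : ℕ, u = (vd e n).toNat := ⟨_, rfl⟩
  have hu1 : (u : ℤ) = max (vd e n) 0 := by
    rw [hu]
    exact Int.toNat_eq_max _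
  have hu2 : (e + 2).choose 2 ≤ A + (L + u) := by
    have h1 : vd e n ≤ (u : ℤ) := by
      rw [hu1]
      exact le_max_left _ _
    rw [hvd] at h1
    omega
  have hlp : lp τ u = ((Finset.univ.filter
      (fun l : Fin h => l ∉ S)).map Function.Embedding.inl) ∪
      (Finset.univ : Finset (Fin u)).map Function.Embedding.inr := by
    unfold lp
    rw [hS]
  have hmassJ : mass (Sum.elim n (fun _ => 1) : Fin h ⊕ Fin u → ℕ) (lp τ u) = L + u := by
    unfold mass
    rw [hlp, Finset.sum_union]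
    · rw [Finset.sum_map, Finset.sum_map]
      simp only [Function.Embedding.inl_apply, Function.Embedding.inr_apply, Sum.elim_inl,
        Sum.elim_inr]
      rw [← hL, Finset.sum_const, Finset.card_univ, Fintype.card_fin]
      simp
    · rw [Finset.disjoint_left]
      intro i hi hi'
      rw [Finset.mem_map] at hi hi'
      obtain ⟨a, -, rfl⟩ := hi
      obtain ⟨b, -, hb⟩ := hi'
      simp at hb
  obtain ⟨p, x, y, hE'⟩ := hE u (by rw [hmassJ]; exact hu2)
  rw [hlp, finE_all τ hS] at hE'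
  obtain ⟨P₀, hP₀⟩ := exists_configT τ p x y hE'
  apply general_nonspecial_of_le P₀
  rw [← hu1]
  exact_mod_cast hP₀

end Pool.Agent.Lib.MP_6b2d39_agVe
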