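import Pool.Agent.Lib.MP_6b2d39_agVe.OmF
import Pool.Agent.Lib.MP_6b2d39_agVe.CertE
import Pool.Agent.Lib.MP_6b2d39_agVe.FinE
import Pool.Agent.Lib.MP_6b2d39_agHal.ConfB

/-!
THEOREM V-EX: reduced systems with nine arbitrary multiplicities and enough small points are nonspecial.

PROOF. `exists_enum` for `S`, `exists_coord`: `e = dg a`, `n (τ i) = mu a i`, `B = pr a a`, `3 e - ∑_S n i = sg a`, `e - n (τ 0) = gr a 1` (as in
`Vn/NineV.lean`). `Λ = 600 r`: `200 A ≤ Λ`, `7442 A Λ ^ 2 = 7442 * 360000 A r ^ 2 ≤ 2700000000 A r ^ 2 ≤ B`. If all `a i < 600 r` for `i ≠ 9`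
then `sg a < 30 * 600 r`; if all `a i < 600 r` for `i ≠ 1` then `gr a 1 < 17 * 600 r`; so `hcase` holds. `om_f`, `finish_e` with `core_e`;
`hm` of `core_e` for `k ≥ A`, `k < l j` (`j` is a light point): `Λ (A + 4 + k) pr a (3 • c) ≤ 6 k * 3 B`, `36 k B ≤ 36 r S_k ≤ Λ S_k` and `mass` of the
filter is at least `S_k / 2` (`x ^ 2 ≤ 2 (x + 1).choose 2`).
-/

open Polynomial

set_option autoImplicit false

namespace Pool.Agent.Lib.MP_6b2d39_agVe

open Pool.Agent.Lib.MP_6b2d39_ag Pool.Agent.Lib.MP_6b2d39_agWin Pool.Agent.Lib.MP_6b2d39_agNw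
  Pool.Agent.Lib.MP_6b2d39_agHal Pool.Agent.Lib.MP_6b2d39_agCr Pool.Agent.Lib.MP_6b2d39_agVn

private theorem nineF_two (x : ℕ) : x ^ 2 ≤ 2 * (x + 1).choose 2 := by
  have h1 := Nat.choose_two_right (x + 1)
  have h2 : 2 ∣ (x + 1) * (x + 1 - 1) := (Nat.even_mul_pred_self (x + 1)).two_dvd
  have h3 : 2 * (x + 1).choose 2 = (x + 1) * x := by
    rw [h1, Nat.mul_div_cancel' h2]
    rfl
  rw [h3]
  nlinarith

private theorem nineF_case {a : Fin 10 → ℕ} {Λ : ℕ} (hs : 30 * Λ ≤ sg a)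
    (hg : 30 * Λ ≤ gr a 1) (hL : 1 ≤ Λ) :
    (∃ i, i ≠ 1 ∧ i ≠ 9 ∧ Λ ≤ a i) ∨ (Λ ≤ a 1 ∧ Λ ≤ a 9) := by
  by_contra hcon
  rw [not_or] at hcon
  obtain ⟨h1, h2⟩ := hcon
  have hlt : ∀ i, i ≠ 1 → i ≠ 9 → a i < Λ := fun i hi1 hi9 => by
    by_contra h3
    exact h1 ⟨i, hi1, hi9, not_lt.1 h3⟩
  have k0 := hlt 0 (by decide) (by decide)
  have k2 := hlt 2 (by decide) (by decide)
  have k3 := hlt 3 (by decide) (by decide)
  have k4 := hlt 4 (by decide) (by decide)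
  have k5 := hlt 5 (by decide) (by decide)
  have k6 := hlt 6 (by decide) (by decide)
  have k7 := hlt 7 (by decide) (by decide)
  have k8 := hlt 8 (by decide) (by decide)
  have hgr : gr a 1 = a 0 + a 2 + 2 * (a 3 + a 4 + a 5 + a 6 + a 7 + a 8 + a 9) := rfl
  rw [hgr] at hg
  unfold sg at hs
  by_cases h3 : Λ ≤ a 1
  · have h4 : a 9 < Λ := by
      by_contra h5
      exact h2 ⟨h3, not_lt.1 h5⟩
    omega
  · have h4 : a 1 < Λ := not_le.1 h3
    omega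

private theorem nineF_mass {h : ℕ} (τ : Fin 9 ↪ Fin h) (u k : ℕ) (n : Fin h → ℕ)
    {S : Finset (Fin h)} (hS : Finset.univ.map τ = S) :
    ∑ i ∈ Finset.univ.filter (fun i => i ∉ S ∧ n i ≤ k), n i ^ 2 ≤
      2 * mass (Sum.elim n (fun _ => 1) : Fin h ⊕ Fin u → ℕ)
        ((lp τ u).filter (fun i => (Sum.elim n (fun _ => 1) : Fin h ⊕ Fin u → ℕ) i ≤ k)) := by
  have h1 : ∑ i ∈ Finset.univ.filter (fun i => i ∉ S ∧ n i ≤ k), n i ^ 2 ≤
      2 * ∑ i ∈ Finset.univ.filter (fun i => i ∉ S ∧ n i ≤ k), (n i + 1).choose 2 := by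
    rw [Finset.mul_sum]
    exact Finset.sum_le_sum fun i _ => nineF_two (n i)
  refine h1.trans (Nat.mul_le_mul_left 2 ?_)
  have h2 : ∑ i ∈ Finset.univ.filter (fun i => i ∉ S ∧ n i ≤ k), (n i + 1).choose 2 =
      ∑ i ∈ (Finset.univ.filter (fun i => i ∉ S ∧ n i ≤ k)).map
        (Function.Embedding.inl : Fin h ↪ Fin h ⊕ Fin u),
        ((Sum.elim n (fun _ => 1) : Fin h ⊕ Fin u → ℕ) i + 1).choose 2 := by
    rw [Finset.sum_map]
    rfl
  rw [h2]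
  unfold mass
  refine Finset.sum_le_sum_of_subset ?_
  intro i hi
  rw [Finset.mem_map] at hi
  obtain ⟨l, hl, rfl⟩ := hi
  rw [Finset.mem_filter] at hl
  rw [Finset.mem_filter]
  refine ⟨?_, hl.2.2⟩
  unfold lp
  rw [Finset.mem_union, Finset.mem_map]
  left
  refine ⟨l, ?_, rfl⟩
  rw [Finset.mem_filter, hS]
  exact ⟨Finset.mem_univ _, hl.2.1⟩

theorem nine_f {h e A r B : ℕ} {n : Fin h → ℕ} {S : Finset (Fin h)} (hh : 3 ≤ h)
    (hred : Reduced e n) (hA : 1 ≤ A) (hr : A ≤ r) (hB2 : 2700000000 * A * r ^ 2 ≤ B)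
    (hS : S.card = 9) (hB : e ^ 2 = ∑ i ∈ S, n i ^ 2 + B)
    (hs : 18000 * r + ∑ i ∈ S, n i ≤ 3 * e) (hg : ∀ i ∈ S, 18000 * r + n i ≤ e)
    (hm : ∀ k : ℕ, A ≤ k → (∃ j, j ∉ S ∧ k < n j) →
      k * B ≤ r * ∑ i ∈ Finset.univ.filter (fun i => i ∉ S ∧ n i ≤ k), n i ^ 2) :
    General (fun P => (Module.finrank ℂ (curves e n P) : ℤ) = max (vd e n) 0) := by
  obtain ⟨τ, hτ, hτS⟩ := exists_enum n hS
  have hsumS : ∀ f : Fin h → ℕ, ∑ i ∈ S, f i = ∑ i, f (τ i) := by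
    intro f
    rw [← hτS, Finset.sum_map]
  have hr3 : n (τ 0) + n (τ 1) + n (τ 2) ≤ e := by
    have h1 := hred ((Fin.castLEEmb (by norm_num : 3 ≤ 9)).trans τ)
    rw [Fin.sum_univ_three] at h1
    exact h1
  obtain ⟨a, hea, hma⟩ := exists_coord (m := fun i => n (τ i)) hτ hr3
  have hmi : ∀ i, n (τ i) = mu a i := fun i => congrFun hma i
  have hBa : pr a a = B := by
    have h1 : ∑ i ∈ S, n i ^ 2 = ∑ i, mu a i * mu a i := by
      rw [hsumS (fun i => n i ^ 2)]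
      refine Finset.sum_congr rfl fun i _ => ?_
      rw [hmi i]
      ring
    have h2 := pr_eq a a
    rw [h1, hea, pow_two, h2] at hB
    omega
  have hdeg : 3 * e = ∑ i, n (τ i) + sg a := by
    have h1 := om_deg a
    rw [← hea] at h1
    rw [h1, Finset.sum_congr rfl fun i _ => hmi i]
  have hsg : 18000 * r ≤ sg a := by
    rw [hsumS (fun i => n i)] at hs
    omega
  have hgr : 18000 * r ≤ gr a 1 := by
    have h1 := hg (τ 0) (by rw [← hτS]; exact Finset.mem_map_of_mem τ (Finset.mem_univ 0))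
    rw [hmi 0] at h1
    have h2 : gr a 1 = a 0 + a 2 + 2 * (a 3 + a 4 + a 5 + a 6 + a 7 + a 8 + a 9) := rfl
    have h3 : mu a 0 = a 1 + a 2 + a 3 + a 4 + a 5 + a 6 + a 7 + a 8 + a 9 := rfl
    have h4 : dg a = a 0 + a 1 + 2 * a 2 + 3 * (a 3 + a 4 + a 5 + a 6 + a 7 + a 8 + a 9) := rfl
    rw [h3, hea, h4] at h1
    rw [h2]
    omega
  have hcase := nineF_case (a := a) (Λ := 600 * r) (by omega) (by omega) (by omega)
  have hB3 : 7442 * A * (600 * r) ^ 2 ≤ pr a a := by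
    rw [hBa]
    refine le_trans ?_ hB2
    have h1 : 7442 * A * (600 * r) ^ 2 = 2679120000 * (A * r ^ 2) := by ring
    have h2 : 2700000000 * A * r ^ 2 = 2700000000 * (A * r ^ 2) := by ring
    rw [h1, h2]
    exact Nat.mul_le_mul_right _ (by norm_num)
  obtain ⟨c, a', h9, h1, ha, hs', h18, hsg', h64, hLam⟩ :=
    om_f (A := A) (Λ := 600 * r) hA (by omega) (by omega) hcase hB3
  refine finish_e τ ?_
  intro u hmass
  rw [hma, hea]
  refine core_e hA h9 h1 ha hs' h18 hsg' h64 ?_ ?_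
  · intro k hk hex
    have hex' : ∃ j, j ∉ S ∧ k < n j := by
      obtain ⟨j, hj, hjk⟩ := hex
      unfold lp at hj
      rw [Finset.mem_union, Finset.mem_map, Finset.mem_map] at hj
      rcases hj with ⟨l, hl, rfl⟩ | ⟨l, -, rfl⟩
      · rw [Finset.mem_filter, hτS] at hl
        exact ⟨l, hl.2, hjk⟩
      · have h2 : k < 1 := hjk
        omega
    have h2 := hm k hk hex'
    have h3 := nineF_mass τ u k n hτS
    obtain ⟨Q, hQ⟩ : ∃ Q, Q = mass (Sum.elim n (fun _ => 1) : Fin h ⊕ Fin u → ℕ)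
        ((lp τ u).filter (fun i => (Sum.elim n (fun _ => 1) : Fin h ⊕ Fin u → ℕ) i ≤ k)) :=
      ⟨_, rfl⟩
    obtain ⟨T, hT⟩ : ∃ T, T = ∑ i ∈ Finset.univ.filter (fun i => i ∉ S ∧ n i ≤ k), n i ^ 2 :=
      ⟨_, rfl⟩
    obtain ⟨P, hP⟩ : ∃ P, P = pr a (3 • c) := ⟨_, rfl⟩
    rw [← hQ, ← hT] at h3
    rw [← hT, ← hBa] at h2
    rw [← hQ, ← hP]
    rw [← hP] at hLam
    have hr0 : 0 < r := by omega
    have h4 : 200 * (k * P) ≤ T := by
      have h5 : r * (200 * (k * P)) * 3 ≤ r * T * 3 := by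
        calc r * (200 * (k * P)) * 3 = k * (600 * r * P) := by ring
          _ ≤ k * (3 * pr a a) := Nat.mul_le_mul_left _ hLam
          _ = k * pr a a * 3 := by ring
          _ ≤ r * T * 3 := Nat.mul_le_mul_right _ h2
      have h6 : r * (200 * (k * P)) ≤ r * T := by omega
      exact Nat.le_of_mul_le_mul_left h6 hr0
    have h5 : (A + 4 + k) * P ≤ 6 * (k * P) := by
      calc (A + 4 + k) * P ≤ (6 * k) * P := Nat.mul_le_mul_right _ (by omega)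
        _ = 6 * (k * P) := by ring
    omega
  · rw [← hea, Finset.sum_congr rfl fun i _ => by rw [← hmi i]]
    exact hmass

end Pool.Agent.Lib.MP_6b2d39_agVe
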