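import Pool.Agent.Lib.MP_6b2d39_agVx.FinX
import Pool.Agent.Lib.MP_6b2d39_agVe.NineF

/-!
The numbers of a reduced special system: all clauses, with the exact theorem for all scales.
-/

open Polynomial

set_option autoImplicit false

namespace Pool.Agent.Lib.MP_6b2d39_agVe

open Pool.Agent.Lib.MP_6b2d39_ag Pool.Agent.Lib.MP_6b2d39_agHal Pool.Agent.Lib.MP_6b2d39_agVn
  Pool.Agent.Lib.MP_6b2d39_agCr Pool.Agent.Lib.MP_6b2d39_agVx

theorem bad_f : ∃ C : ℝ, ∀ (h e : ℕ) (n : Fin h → ℕ), 3 ≤ h → Reduced e n →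
    ¬ General (fun P => (Module.finrank ℂ (curves e n P) : ℤ) = max (vd e n) 0) →
    ∀ σ : Equiv.Perm (Fin h), Antitone (fun i => n (σ i)) →
      ∃ (i0 i9 : Fin h) (A s μ : ℕ), (i0 : ℕ) = 0 ∧ (i9 : ℕ) = 9 ∧ μ = n (σ i9) ∧ 1 ≤ μ ∧
        e ^ 2 = ∑ i : Fin h, (if (i : ℕ) < 9 then n (σ i) ^ 2 else 0) + A ∧
        3 * e = ∑ i : Fin h, (if (i : ℕ) < 9 then n (σ i) else 0) + s ∧ 1 ≤ s ∧
        e ≤ 3 * A ∧ A < 4000000 * μ ^ 3 ∧
        General (fun P => (Module.finrank ℂ (curves e n P) : ℤ) ≤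
          max (vd e n) 0 + 15 * (μ : ℤ) ^ 2) ∧
        ∀ r : ℕ, C * r ≤ s → C * r + n (σ i0) ≤ e →
          (∀ W : ℝ, μ ≤ r → W = C * (((r : ℝ) * μ ^ 2 / A) ^ 2 + μ +
            ((A : ℝ) / r) ^ (3 / 4 : ℝ)) * Real.log ((A : ℝ) / μ ^ 2 + 2) ^ 3 →
            |((vd e n : ℤ) : ℝ)| < W ∧
              General (fun P => (Module.finrank ℂ (curves e n P) : ℝ) ≤
                max ((vd e n : ℤ) : ℝ) 0 + W)) ∧
          ∀ a : ℕ, 1 ≤ a → a ≤ r → C * a * (r : ℝ) ^ 2 ≤ A → ∃ k : ℕ, a ≤ k ∧ k < μ ∧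
            r * ∑ i ∈ Finset.univ.filter (fun i => n i ≤ k), n i ^ 2 < k * A := by
  obtain ⟨C1, H1⟩ := bad_y
  obtain ⟨C, hC⟩ : ∃ C, C = max C1 2700000000 := ⟨_, rfl⟩
  have e1 : C1 ≤ C := by rw [hC]; exact le_max_left _ _
  have e2 : 2700000000 ≤ C := by rw [hC]; exact le_max_right _ _
  refine ⟨C, fun h e n hh hred hbad σ hσ => ?_⟩
  obtain ⟨i0, i9, A, s, μ, k1, k2, k3, k4, k5, k6, k7, k8, k9, k10, k11⟩ :=
    H1 h e n hh hred hbad σ hσ
  have h10 : 10 ≤ h := by have := i9.2; omega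
  have h9 : 9 ≤ h := by omega
  obtain ⟨τ, hτ⟩ : ∃ τ : Fin 9 ↪ Fin h, τ = (Fin.castLEEmb h9).trans σ.toEmbedding := ⟨_, rfl⟩
  have hτ1 : ∀ i, τ i = σ (Fin.castLE h9 i) := fun i => by rw [hτ]; rfl
  have hS : (Finset.univ.map τ).card = 9 := by
    rw [Finset.card_map, Finset.card_univ, Fintype.card_fin]
  have hpos : ∀ i, μ ≤ n (τ i) := by
    intro i
    rw [hτ1, k3]
    apply hσ
    show ((Fin.castLE h9 i : Fin h) : ℕ) ≤ (i9 : ℕ)
    rw [k2]
    have := i.2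
    show (i : ℕ) ≤ 9
    omega
  have hl : ∀ j, j ∉ Finset.univ.map τ → n j ≤ μ := by
    intro j hj
    obtain ⟨x, rfl⟩ := σ.surjective j
    rw [k3]
    apply hσ
    show (i9 : ℕ) ≤ (x : ℕ)
    by_contra hcon
    apply hj
    rw [Finset.mem_map]
    refine ⟨⟨x, by omega⟩, Finset.mem_univ _, ?_⟩
    rw [hτ1]
    rfl
  have f1 : ∑ i : Fin h, (if (i : ℕ) < 9 then n (σ i) ^ 2 else 0) = ∑ i, n (τ i) ^ 2 := by
    rw [fx_sum h9 (fun i => n (σ i) ^ 2)]
    exact Finset.sum_congr rfl fun i _ => by rw [hτ1]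
  have f2 : ∑ i : Fin h, (if (i : ℕ) < 9 then n (σ i) else 0) = ∑ i, n (τ i) := by
    rw [fx_sum h9 (fun i => n (σ i))]
    exact Finset.sum_congr rfl fun i _ => by rw [hτ1]
  refine ⟨i0, i9, A, s, μ, k1, k2, k3, k4, k5, k6, k7, k8, k9, k10, ?_⟩
  intro r hs hg
  have hr0 : (0 : ℝ) ≤ r := Nat.cast_nonneg _
  have g2 : (18000 : ℝ) * r ≤ C * r := mul_le_mul_of_nonneg_right (by linarith) hr0
  constructor
  · intro W hr hW
    obtain ⟨B, hB⟩ : ∃ B : ℝ, B = (((r : ℝ) * μ ^ 2 / A) ^ 2 + μ +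
        ((A : ℝ) / r) ^ (3 / 4 : ℝ)) := ⟨_, rfl⟩
    obtain ⟨L, hL⟩ : ∃ L : ℝ, L = Real.log ((A : ℝ) / μ ^ 2 + 2) ^ 3 := ⟨_, rfl⟩
    have hB0 : 0 ≤ B := by rw [hB]; positivity
    have hL0 : 0 ≤ L := by
      have h4 : (0 : ℝ) ≤ (A : ℝ) / μ ^ 2 := by positivity
      have : 0 ≤ Real.log ((A : ℝ) / μ ^ 2 + 2) := Real.log_nonneg (by linarith)
      rw [hL]
      positivity
    have g1 : C1 * r ≤ C * r := mul_le_mul_of_nonneg_right e1 hr0
    have w1 : C1 * B * L ≤ W := by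
      rw [hW, ← hB, ← hL, mul_assoc, mul_assoc]
      exact mul_le_mul_of_nonneg_right e1 (mul_nonneg hB0 hL0)
    obtain ⟨h1, h2⟩ := k11 r (C1 * B * L) hr (by linarith) (by linarith) (by rw [hB, hL])
    exact ⟨lt_of_lt_of_le h1 w1, h2.mono fun P hP => by linarith⟩
  · intro a ha har haA
    by_contra hcon
    push Not at hcon
    apply hbad
    refine nine_f (S := Finset.univ.map τ) (B := A) hh hred ha har ?_ hS ?_ ?_ ?_ ?_
    · have h3 : (2700000000 : ℝ) * a * (r : ℝ) ^ 2 ≤ A := by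
        refine le_trans ?_ haA
        exact mul_le_mul_of_nonneg_right (mul_le_mul_of_nonneg_right e2 (Nat.cast_nonneg _))
          (by positivity)
      exact_mod_cast h3
    · rw [Finset.sum_map, ← f1]
      exact k5
    · rw [Finset.sum_map, ← f2]
      have h3 : (18000 : ℝ) * r ≤ s := by linarith
      have h4 : 18000 * r ≤ s := by exact_mod_cast h3
      omega
    · intro i hi
      rw [Finset.mem_map] at hi
      obtain ⟨j, -, rfl⟩ := hi
      have h3 : n (τ j) ≤ n (σ i0) := by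
        rw [hτ1]
        apply hσ
        show (i0 : ℕ) ≤ _
        rw [k1]
        exact Nat.zero_le _
      have h4 : (18000 : ℝ) * r + n (σ i0) ≤ e := by linarith
      have h5 : 18000 * r + n (σ i0) ≤ e := by exact_mod_cast h4
      omega
    · rintro k hk ⟨j, hj, hkj⟩
      have h3 : k < μ := lt_of_lt_of_le hkj (hl j hj)
      have h4 : Finset.univ.filter (fun i => i ∉ Finset.univ.map τ ∧ n i ≤ k) =
          Finset.univ.filter (fun i => n i ≤ k) := by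
        refine Finset.filter_congr fun i _ => ⟨fun h => h.2, fun h => ⟨?_, h⟩⟩
        intro hi
        rw [Finset.mem_map] at hi
        obtain ⟨x, -, rfl⟩ := hi
        have := hpos x
        omega
      rw [h4]
      exact hcon k hk h3

end Pool.Agent.Lib.MP_6b2d39_agVe
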