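import Pool.Agent.Lib.MP_6b2d39_agVe.OmE
import Pool.Agent.Lib.MP_6b2d39_agVe.CertE
import Pool.Agent.Lib.MP_6b2d39_agVe.FinE
import Pool.Agent.Lib.MP_6b2d39_agHal.ConfB

/-!
THEOREM V-EX: reduced systems with nine arbitrary multiplicities and enough small points are nonspecial.

PROOF. `exists_enum` for `S`, `exists_coord`: `e = dg a`, `n (τ i) = mu a i`, `B = pr a a`, `3 e - ∑_S n i = sg a`, `e - n (τ 0) = gr a 1` (as in
`Vn/NineV.lean`). `k = Nat.sqrt (2 A) + 1`: `2 A ≤ k ^ 2 ≤ 9 A`; `Λ = 600 r`: `(200 A k) ^ 2 ≤ 360000 A ^ 3 ≤ Λ ^ 2`. If all `a i < 600 r` for `i ≠ 9`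
then `sg a < 30 * 600 r`; if all `a i < 600 r` for `i ≠ 1` then `gr a 1 < 17 * 600 r`; so `hcase` holds. `om_e`, `finish_e` with `core_e`;
`hm` of `core_e` for `k' ≥ A`, `k' < l j` (`j` is a light point): `Λ (A + 4 + k') pr a (3 • c) ≤ 6 k' * 3 k B` and
`(36 k' k B) ^ 2 ≤ 1296 * 9 k' ^ 2 A B ^ 2 ≤ (108 r S_k') ^ 2`, `108 r S_k' ≤ Λ S_k'`, and `mass` of the filter is at least `S_k' / 2`
(`x ^ 2 ≤ 2 (x + 1).choose 2`).
-/

open Polynomial

set_option autoImplicit false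

namespace Pool.Agent.Lib.MP_6b2d39_agVe

open Pool.Agent.Lib.MP_6b2d39_ag Pool.Agent.Lib.MP_6b2d39_agWin Pool.Agent.Lib.MP_6b2d39_agNw
  Pool.Agent.Lib.MP_6b2d39_agHal Pool.Agent.Lib.MP_6b2d39_agCr Pool.Agent.Lib.MP_6b2d39_agVn

private theorem ne_k {A : ℕ} (hA : 1 ≤ A) :
    2 * A ≤ (Nat.sqrt (2 * A) + 1) ^ 2 ∧ (Nat.sqrt (2 * A) + 1) ^ 2 ≤ 9 * A := by
  set q := Nat.sqrt (2 * A) with hq
  have h1 : q * q ≤ 2 * A := Nat.sqrt_le (2 * A)
  have h2 : 2 * A < (q + 1) * (q + 1) := Nat.lt_succ_sqrt (2 * A)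
  have h3 : q ≤ q * q := Nat.le_mul_self q
  constructor
  · nlinarith
  · nlinarith

private theorem ne_lam {A k r : ℕ} (hk : k ^ 2 ≤ 9 * A) (hr : A ^ 3 ≤ r ^ 2) :
    200 * A * k ≤ 600 * r := by
  have h1 : (200 * A * k) ^ 2 ≤ (600 * r) ^ 2 := by
    calc (200 * A * k) ^ 2 = 40000 * A ^ 2 * k ^ 2 := by ring
      _ ≤ 40000 * A ^ 2 * (9 * A) := Nat.mul_le_mul_left _ hk
      _ = 360000 * A ^ 3 := by ring
      _ ≤ 360000 * r ^ 2 := Nat.mul_le_mul_left _ hr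
      _ = (600 * r) ^ 2 := by ring
  exact le_of_sq_le_sq' h1
where
  le_of_sq_le_sq' {x y : ℕ} (h : x ^ 2 ≤ y ^ 2) : x ≤ y := by
    by_contra hcon
    push Not at hcon
    have := Nat.pow_lt_pow_left hcon (n := 2) (by norm_num)
    omega

private theorem ne_sq {x y : ℕ} (h : x ^ 2 ≤ y ^ 2) : x ≤ y := by
  by_contra hcon
  push Not at hcon
  have := Nat.pow_lt_pow_left hcon (n := 2) (by norm_num)
  omega

private theorem ne_case {a : Fin 10 → ℕ} {Λ : ℕ} (h1 : 30 * Λ ≤ sg a) (h2 : 30 * Λ + mu a 0 ≤ dg a)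
    (hΛ : 1 ≤ Λ) :
    (∃ i, i ≠ 1 ∧ i ≠ 9 ∧ Λ ≤ a i) ∨ (Λ ≤ a 1 ∧ Λ ≤ a 9) := by
  by_contra hcon
  rw [not_or] at hcon
  obtain ⟨hc1, hc2⟩ := hcon
  push Not at hc1
  have b0 := hc1 0 (by decide) (by decide)
  have b2 := hc1 2 (by decide) (by decide)
  have b3 := hc1 3 (by decide) (by decide)
  have b4 := hc1 4 (by decide) (by decide)
  have b5 := hc1 5 (by decide) (by decide)
  have b6 := hc1 6 (by decide) (by decide)
  have b7 := hc1 7 (by decide) (by decide)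
  have b8 := hc1 8 (by decide) (by decide)
  have e1 : mu a 0 = a 1 + a 2 + a 3 + a 4 + a 5 + a 6 + a 7 + a 8 + a 9 := rfl
  rw [e1, Pool.Agent.Lib.MP_6b2d39_agVn.dg] at h2
  rw [sg] at h1
  by_cases h3 : Λ ≤ a 1
  · have h4 : a 9 < Λ := by
      by_contra h5
      exact hc2 ⟨h3, not_lt.1 h5⟩
    omega
  · omega

private theorem ne_choose2 (x : ℕ) : x ^ 2 ≤ 2 * (x + 1).choose 2 := by
  have h1 : 2 * (x + 1).choose 2 = (x + 1) * x := by
    have h2 := Nat.choose_two_right (x + 1)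
    rw [h2]
    have h3 : 2 ∣ (x + 1) * (x + 1 - 1) := (Nat.even_mul_pred_self (x + 1)).two_dvd
    rw [Nat.mul_div_cancel' h3]
    rfl
  rw [h1]
  nlinarith

private theorem ne_fin {A k k' r B X Sk m : ℕ} (hA : 1 ≤ A) (hk2 : k ^ 2 ≤ 9 * A) (hAk : A ≤ k')
    (hr1 : 1 ≤ r) (hX : 600 * r * X ≤ 3 * k * B) (hm : k' ^ 2 * A * B ^ 2 ≤ r ^ 2 * Sk ^ 2)
    (hS : Sk ≤ 2 * m) : (A + 4 + k') * X ≤ m := by
  have h1 : 18 * k' * k * B ≤ 54 * r * Sk := by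
    apply ne_sq
    calc (18 * k' * k * B) ^ 2 = 324 * k' ^ 2 * B ^ 2 * k ^ 2 := by ring
      _ ≤ 324 * k' ^ 2 * B ^ 2 * (9 * A) := Nat.mul_le_mul_left _ hk2
      _ = 2916 * (k' ^ 2 * A * B ^ 2) := by ring
      _ ≤ 2916 * (r ^ 2 * Sk ^ 2) := Nat.mul_le_mul_left _ hm
      _ = (54 * r * Sk) ^ 2 := by ring
  have h2 : A + 4 + k' ≤ 6 * k' := by omega
  have h3 : 600 * r * ((A + 4 + k') * X) ≤ 600 * r * m := by
    calc 600 * r * ((A + 4 + k') * X) ≤ 600 * r * (6 * k' * X) :=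
          Nat.mul_le_mul_left _ (Nat.mul_le_mul_right _ h2)
      _ = 6 * k' * (600 * r * X) := by ring
      _ ≤ 6 * k' * (3 * k * B) := Nat.mul_le_mul_left _ hX
      _ = 18 * k' * k * B := by ring
      _ ≤ 54 * r * Sk := h1
      _ ≤ 54 * r * (2 * m) := Nat.mul_le_mul_left _ hS
      _ ≤ 600 * r * m := by nlinarith [Nat.zero_le (r * m)]
  exact Nat.le_of_mul_le_mul_left h3 (by positivity)

private theorem ne_mass {h u : ℕ} {n : Fin h → ℕ} (τ : Fin 9 ↪ Fin h) {S : Finset (Fin h)}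
    (hτ : Finset.univ.map τ = S) (k : ℕ) :
    ∑ i ∈ Finset.univ.filter (fun i => i ∉ S ∧ n i ≤ k), n i ^ 2 ≤
      2 * mass (Sum.elim n (fun _ => 1) : Fin h ⊕ Fin u → ℕ) ((lp τ u).filter
        (fun i => (Sum.elim n (fun _ => 1) : Fin h ⊕ Fin u → ℕ) i ≤ k)) := by
  classical
  have hsub : (Finset.univ.filter (fun i => i ∉ S ∧ n i ≤ k)).map
      (Function.Embedding.inl : Fin h ↪ Fin h ⊕ Fin u) ⊆ (lp τ u).filter
        (fun i => (Sum.elim n (fun _ => 1) : Fin h ⊕ Fin u → ℕ) i ≤ k) := by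
    intro x hx
    obtain ⟨i, hi, rfl⟩ := Finset.mem_map.1 hx
    obtain ⟨h1, h2⟩ := (Finset.mem_filter.1 hi).2
    refine Finset.mem_filter.2 ⟨?_, h2⟩
    refine Finset.mem_union_left _ (Finset.mem_map.2 ⟨i, ?_, rfl⟩)
    exact Finset.mem_filter.2 ⟨Finset.mem_univ _, by rw [hτ]; exact h1⟩
  have h1 : ∑ i ∈ Finset.univ.filter (fun i => i ∉ S ∧ n i ≤ k), n i ^ 2 ≤
      2 * ∑ x ∈ (Finset.univ.filter (fun i => i ∉ S ∧ n i ≤ k)).map
        (Function.Embedding.inl : Fin h ↪ Fin h ⊕ Fin u),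
          ((Sum.elim n (fun _ => 1) : Fin h ⊕ Fin u → ℕ) x + 1).choose 2 := by
    rw [Finset.sum_map, Finset.mul_sum]
    exact Finset.sum_le_sum fun i _ => ne_choose2 (n i)
  refine h1.trans (Nat.mul_le_mul_left _ ?_)
  exact Finset.sum_le_sum_of_subset hsub

theorem nine_e {h e A r B : ℕ} {n : Fin h → ℕ} {S : Finset (Fin h)} (hh : 3 ≤ h)
    (hred : Reduced e n) (hA : 1 ≤ A) (hr : A ^ 3 ≤ r ^ 2) (hS : S.card = 9)
    (hB : e ^ 2 = ∑ i ∈ S, n i ^ 2 + B) (hs : 18000 * r + ∑ i ∈ S, n i ≤ 3 * e)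
    (hg : ∀ i ∈ S, 18000 * r + n i ≤ e)
    (hm : ∀ k : ℕ, A ≤ k → (∃ j, j ∉ S ∧ k < n j) →
      k ^ 2 * A * B ^ 2 ≤
        r ^ 2 * (∑ i ∈ Finset.univ.filter (fun i => i ∉ S ∧ n i ≤ k), n i ^ 2) ^ 2) :
    General (fun P => (Module.finrank ℂ (curves e n P) : ℤ) = max (vd e n) 0) := by
  classical
  obtain ⟨τ, hτ, hτS⟩ := exists_enum n hS
  have hsumS : ∀ f : Fin h → ℕ, ∑ i ∈ S, f i = ∑ i, f (τ i) := by
    intro f
    rw [← hτS, Finset.sum_map]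
  have hr3 : n (τ 0) + n (τ 1) + n (τ 2) ≤ e := by
    have h1 := hred ((Fin.castLEEmb (by norm_num : 3 ≤ 9)).trans τ)
    rw [Fin.sum_univ_three] at h1
    exact h1
  obtain ⟨a, hea, hma⟩ := exists_coord (m := fun i => n (τ i)) hτ hr3
  have hmi : ∀ i, n (τ i) = mu a i := fun i => congrFun hma i
  have hBa : B = pr a a := by
    have h1 : ∑ i ∈ S, n i ^ 2 = ∑ i, mu a i * mu a i := by
      rw [hsumS (fun i => n i ^ 2)]
      refine Finset.sum_congr rfl fun i _ => ?_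
      rw [hmi i]
      ring
    have h2 := pr_eq a a
    rw [h1, hea, pow_two, h2] at hB
    omega
  have hdeg : 3 * e = ∑ i, n (τ i) + sg a := by
    have h1 := om_deg a
    rw [← hea] at h1
    rw [h1, Finset.sum_congr rfl fun i _ => hmi i]
  have hr1 : 1 ≤ r := by
    rcases Nat.eq_zero_or_pos r with h0 | h0
    · rw [h0] at hr
      have h1 : 0 < A ^ 3 := Nat.pow_pos hA
      simp at hr
      omega
    · exact h0
  have hsg : 30 * (600 * r) ≤ sg a := by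
    rw [hsumS n] at hs
    omega
  have h0S : τ 0 ∈ S := by
    rw [← hτS]
    exact Finset.mem_map_of_mem τ (Finset.mem_univ _)
  have hg0 : 30 * (600 * r) + mu a 0 ≤ dg a := by
    have h1 := hg (τ 0) h0S
    rw [hmi 0, hea] at h1
    omega
  have hcase := ne_case hsg hg0 (by omega : 1 ≤ 600 * r)
  obtain ⟨hk1, hk2⟩ := ne_k hA
  set k := Nat.sqrt (2 * A) + 1 with hk
  have hsg1 : 1 ≤ sg a := by omega
  obtain ⟨c, a', h9, h1, ha, hs', hQ, hsc, hbig, hlam⟩ :=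
    om_e hA hk1 (ne_lam hk2 hr) hsg1 hcase
  refine finish_e τ ?_
  intro u hmass
  have hmass' : (dg a + 2).choose 2 ≤ ∑ i, (mu a i + 1).choose 2 +
      mass (Sum.elim n (fun _ => 1) : Fin h ⊕ Fin u → ℕ) (lp τ u) := by
    rw [← hea, Finset.sum_congr rfl fun i _ => by rw [← hmi i]]
    exact hmass
  have key := core_e hA h9 h1 ha hs' hQ hsc hbig
    (l := (Sum.elim n (fun _ => 1) : Fin h ⊕ Fin u → ℕ)) (J := lp τ u) ?_ hmass'
  · rw [hma, hea]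
    exact key
  · intro k' hk' hj
    have hj' : ∃ j, j ∉ S ∧ k' < n j := by
      obtain ⟨x, hx, hkx⟩ := hj
      rcases Finset.mem_union.1 hx with hx | hx
      · obtain ⟨i, hi, rfl⟩ := Finset.mem_map.1 hx
        refine ⟨i, ?_, hkx⟩
        rw [← hτS]
        exact (Finset.mem_filter.1 hi).2
      · obtain ⟨i, _, rfl⟩ := Finset.mem_map.1 hx
        have h2 : k' < 1 := hkx
        omega
    have h2 := hm k' hk' hj'
    have h3 := ne_mass (u := u) (n := n) τ hτS k'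
    rw [hBa] at h2
    exact ne_fin hA hk2 hk' hr1 hlam h2 h3

end Pool.Agent.Lib.MP_6b2d39_agVe
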