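import Pool.Agent.Lib.MP_6b2d39_agVn.OmOne

/-!
The class `3 c` of the curve for the exact theorem.

PROOF. As `om_w` (`Vw/OmW.lean`) with `c0 j = a j / Λ`, `c = k • c0`, `3 c = 3 k c0`, `a' = a - (3 A + 1) (3 c)`:
`(3 A + 1) * 3 k ≤ 12 A k ≤ Λ / 16`, so `2 a' j ≥ a j`. `pr (3 c) (3 c) = 9 k ^ 2 pr c0 c0 ≥ 9 k ^ 2 ≥ 18 A`.
`sg (3 c) = 3 k sg c0 ≤ 9 k pr c0 c0 ≤ pr (3 c) (3 c)` (`3 sg c0 ≤ 9 pr c0 c0` as in `om_w`). `Λ pr a (3 c) = 3 k Λ pr a c0 ≤ 3 k pr a a` (`Λ c0 ≤ a`)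
and `64 A pr a (3 c) ≤ pr a a` because `192 A k ≤ Λ`.
-/

open Polynomial

set_option autoImplicit false

namespace Pool.Agent.Lib.MP_6b2d39_agVe

open Pool.Agent.Lib.MP_6b2d39_agVn

private theorem omE_sum10 (f : Fin 10 → ℕ) :
    ∑ i, f i = f 0 + f 1 + f 2 + f 3 + f 4 + f 5 + f 6 + f 7 + f 8 + f 9 := by
  rw [Fin.sum_univ_castSucc, Fin.sum_univ_castSucc, Fin.sum_univ_eight]
  rfl

private theorem omE_gr (b : Fin 10 → ℕ) :
    gr b 0 = b 0 + b 1 + 2 * b 2 + 3 * (b 3 + b 4 + b 5 + b 6 + b 7 + b 8 + b 9) ∧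
    gr b 1 = b 0 + b 2 + 2 * (b 3 + b 4 + b 5 + b 6 + b 7 + b 8 + b 9) ∧
    gr b 2 = 2 * b 0 + b 1 + 2 * b 2 + 4 * (b 3 + b 4 + b 5 + b 6 + b 7 + b 8 + b 9) ∧
    gr b 3 = 3 * b 0 + 2 * b 1 + 4 * b 2 + 6 * (b 3 + b 4 + b 5 + b 6 + b 7 + b 8 + b 9) ∧
    gr b 4 = 3 * b 0 + 2 * b 1 + 4 * b 2 + 6 * b 3 +
      5 * (b 4 + b 5 + b 6 + b 7 + b 8 + b 9) ∧
    gr b 5 = 3 * b 0 + 2 * b 1 + 4 * b 2 + 6 * b 3 + 5 * b 4 +
      4 * (b 5 + b 6 + b 7 + b 8 + b 9) ∧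
    gr b 6 = 3 * b 0 + 2 * b 1 + 4 * b 2 + 6 * b 3 + 5 * b 4 + 4 * b 5 +
      3 * (b 6 + b 7 + b 8 + b 9) ∧
    gr b 7 = 3 * b 0 + 2 * b 1 + 4 * b 2 + 6 * b 3 + 5 * b 4 + 4 * b 5 + 3 * b 6 +
      2 * (b 7 + b 8 + b 9) ∧
    gr b 8 = 3 * b 0 + 2 * b 1 + 4 * b 2 + 6 * b 3 + 5 * b 4 + 4 * b 5 + 3 * b 6 + 2 * b 7 +
      (b 8 + b 9) ∧
    gr b 9 = 3 * b 0 + 2 * b 1 + 4 * b 2 + 6 * b 3 + 5 * b 4 + 4 * b 5 + 3 * b 6 + 2 * b 7 +
      b 8 := ⟨rfl, rfl, rfl, rfl, rfl, rfl, rfl, rfl, rfl, rfl⟩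

private theorem omE_mono {a b : Fin 10 → ℕ} (c : Fin 10 → ℕ) (h : ∀ j, a j ≤ b j) :
    pr a c ≤ pr b c := by
  unfold pr
  exact Finset.sum_le_sum fun j _ => Nat.mul_le_mul_right _ (h j)

private theorem omE_sg {c : Fin 10 → ℕ} (h : ∃ i, i ≠ 1 ∧ 1 ≤ c i) : sg c ≤ 3 * pr c c := by
  obtain ⟨g0, g1, g2, g3, g4, g5, g6, g7, g8, g9⟩ := omE_gr c
  have hg1 : 1 ≤ gr c 1 := by
    obtain ⟨i, hi, hc⟩ := h
    rw [g1]
    fin_cases i
    · change 1 ≤ c 0 at hc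
      omega
    · exact absurd rfl hi
    · change 1 ≤ c 2 at hc
      omega
    · change 1 ≤ c 3 at hc
      omega
    · change 1 ≤ c 4 at hc
      omega
    · change 1 ≤ c 5 at hc
      omega
    · change 1 ≤ c 6 at hc
      omega
    · change 1 ≤ c 7 at hc
      omega
    · change 1 ≤ c 8 at hc
      omega
    · change 1 ≤ c 9 at hc
      omega
  have key : ∀ (j : Fin 10) (σ : ℕ), (1 ≤ c j → σ ≤ 3 * gr c j) → σ * c j ≤ 3 * (c j * gr c j) := by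
    intro j σ hj
    rcases Nat.eq_zero_or_pos (c j) with h0 | h0
    · rw [h0]
      simp
    · calc σ * c j ≤ (3 * gr c j) * c j := Nat.mul_le_mul_right _ (hj h0)
        _ = 3 * (c j * gr c j) := by ring
  have k0 := key 0 3 fun h0 => by rw [g0]; omega
  have k1 := key 1 2 fun h0 => by omega
  have k2 := key 2 4 fun h0 => by rw [g2]; omega
  have k3 := key 3 6 fun h0 => by rw [g3]; omega
  have k4 := key 4 5 fun h0 => by rw [g4]; omega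
  have k5 := key 5 4 fun h0 => by rw [g5]; omega
  have k6 := key 6 3 fun h0 => by rw [g6]; omega
  have k7 := key 7 2 fun h0 => by rw [g7]; omega
  have k8 := key 8 1 fun h0 => by rw [g8]; omega
  have hp : pr c c = c 0 * gr c 0 + c 1 * gr c 1 + c 2 * gr c 2 + c 3 * gr c 3 + c 4 * gr c 4 +
      c 5 * gr c 5 + c 6 * gr c 6 + c 7 * gr c 7 + c 8 * gr c 8 + c 9 * gr c 9 := by
    unfold pr
    rw [omE_sum10]
  rw [hp]
  unfold sg
  omega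

private theorem omE_sg2 {a b : Fin 10 → ℕ} (h : ∀ j, a j ≤ 2 * b j) : sg a ≤ 2 * sg b := by
  unfold sg
  have h0 := h 0
  have h1 := h 1
  have h2 := h 2
  have h3 := h 3
  have h4 := h 4
  have h5 := h 5
  have h6 := h 6
  have h7 := h 7
  have h8 := h 8
  omega

theorem om_e {A k Λ : ℕ} (hA : 1 ≤ A) (hk : 2 * A ≤ k ^ 2) (hΛ : 200 * A * k ≤ Λ)
    {a : Fin 10 → ℕ} (hs : 1 ≤ sg a)
    (hcase : (∃ i, i ≠ 1 ∧ i ≠ 9 ∧ Λ ≤ a i) ∨ (Λ ≤ a 1 ∧ Λ ≤ a 9)) :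
    ∃ c a' : Fin 10 → ℕ, (∃ i, i ≠ 9 ∧ 1 ≤ c i) ∧ (∃ i, i ≠ 1 ∧ 1 ≤ c i) ∧
      a = a' + (3 * A + 1) • (3 • c) ∧ 1 ≤ sg a' ∧ 18 * A ≤ pr (3 • c) (3 • c) ∧
      sg (3 • c) ≤ pr (3 • c) (3 • c) ∧ 64 * A * pr a (3 • c) ≤ pr a a ∧
      Λ * pr a (3 • c) ≤ 3 * k * pr a a := by
  have hk1 : 1 ≤ k := by
    rcases Nat.eq_zero_or_pos k with h0 | h0
    · rw [h0] at hk
      simp at hk
      omega
    · exact h0
  have hAk : 1 ≤ A * k := Nat.mul_pos hA hk1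
  have hΛ' : 200 * (A * k) ≤ Λ := by
    calc 200 * (A * k) = 200 * A * k := by ring
      _ ≤ Λ := hΛ
  have hL : 0 < Λ := by omega
  obtain ⟨d, hd⟩ : ∃ d : Fin 10 → ℕ, ∀ j, d j = a j / Λ := ⟨fun j => a j / Λ, fun _ => rfl⟩
  have hc1 : ∀ j, Λ * d j ≤ a j := by
    intro j
    rw [hd]
    exact Nat.mul_div_le (a j) Λ
  have hge : ∀ j, Λ ≤ a j → 1 ≤ d j := by
    intro j hj
    rw [hd]
    exact (Nat.one_le_div_iff hL).2 hj
  have h9 : ∃ i, i ≠ 9 ∧ 1 ≤ d i := by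
    rcases hcase with ⟨i, _, h9, hi⟩ | ⟨h1, _⟩
    · exact ⟨i, h9, hge i hi⟩
    · exact ⟨1, by decide, hge 1 h1⟩
  have h1 : ∃ i, i ≠ 1 ∧ 1 ≤ d i := by
    rcases hcase with ⟨i, h1, _, hi⟩ | ⟨_, h9⟩
    · exact ⟨i, h1, hge i hi⟩
    · exact ⟨9, by decide, hge 9 h9⟩
  have hsd : 1 ≤ sg d := by
    obtain ⟨i, hi, hc⟩ := h9
    unfold sg
    fin_cases i
    · change 1 ≤ d 0 at hc
      omega
    · change 1 ≤ d 1 at hc
      omega
    · change 1 ≤ d 2 at hc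
      omega
    · change 1 ≤ d 3 at hc
      omega
    · change 1 ≤ d 4 at hc
      omega
    · change 1 ≤ d 5 at hc
      omega
    · change 1 ≤ d 6 at hc
      omega
    · change 1 ≤ d 7 at hc
      omega
    · change 1 ≤ d 8 at hc
      omega
    · exact absurd rfl hi
  have hsg := omE_sg h1
  have hpd : 1 ≤ pr d d := by omega
  have hMc : ∀ j, 2 * ((3 * A + 1) * (3 * (k * d j))) ≤ a j := by
    intro j
    have e1 : 2 * ((3 * A + 1) * (3 * (k * d j))) ≤ Λ * d j := by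
      calc 2 * ((3 * A + 1) * (3 * (k * d j))) = (18 * (A * k) + 6 * k) * d j := by ring
        _ ≤ Λ * d j := by
          apply Nat.mul_le_mul_right
          have : k ≤ A * k := Nat.le_mul_of_pos_left k hA
          omega
    exact e1.trans (hc1 j)
  have hda : ∀ b, Λ * pr d b ≤ pr a b := by
    intro b
    rw [← pr_smul]
    refine omE_mono b fun j => ?_
    simp only [Pi.smul_apply, smul_eq_mul]
    exact hc1 j
  have hpac : pr a (3 • (k • d)) = 3 * (k * pr d a) := by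
    rw [pr_symm, pr_smul, pr_smul]
  have hpcc : pr (3 • (k • d)) (3 • (k • d)) = 9 * (k * (k * pr d d)) := by
    rw [pr_smul, pr_smul, pr_symm, pr_smul, pr_smul]
    ring
  refine ⟨k • d, fun j => a j - (3 * A + 1) * (3 * (k * d j)), ?_, ?_, ?_, ?_, ?_, ?_, ?_, ?_⟩
  · obtain ⟨i, hi, hc⟩ := h9
    refine ⟨i, hi, ?_⟩
    simp only [Pi.smul_apply, smul_eq_mul]
    exact Nat.mul_pos hk1 hc
  · obtain ⟨i, hi, hc⟩ := h1
    refine ⟨i, hi, ?_⟩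
    simp only [Pi.smul_apply, smul_eq_mul]
    exact Nat.mul_pos hk1 hc
  · funext j
    simp only [Pi.add_apply, Pi.smul_apply, smul_eq_mul]
    have := hMc j
    omega
  · have e1 : sg a ≤ 2 * sg (fun j => a j - (3 * A + 1) * (3 * (k * d j))) := by
      refine omE_sg2 fun j => ?_
      have := hMc j
      show a j ≤ 2 * (a j - (3 * A + 1) * (3 * (k * d j)))
      omega
    omega
  · rw [hpcc]
    have e1 : k * (k * 1) ≤ k * (k * pr d d) :=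
      Nat.mul_le_mul_left k (Nat.mul_le_mul_left k hpd)
    have e2 : k ^ 2 = k * (k * 1) := by ring
    omega
  · rw [hpcc, sg_smul, sg_smul]
    have e1 : k * sg d ≤ k * (3 * pr d d) := Nat.mul_le_mul_left k hsg
    have e2 : k * (1 * pr d d) ≤ k * (k * pr d d) :=
      Nat.mul_le_mul_left k (Nat.mul_le_mul_right _ hk1)
    have e3 : k * (3 * pr d d) = 3 * (k * (1 * pr d d)) := by ring
    omega
  · rw [hpac]
    calc 64 * A * (3 * (k * pr d a)) = 192 * (A * k) * pr d a := by ring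
      _ ≤ Λ * pr d a := Nat.mul_le_mul_right _ (by omega)
      _ ≤ pr a a := hda a
  · rw [hpac]
    calc Λ * (3 * (k * pr d a)) = 3 * k * (Λ * pr d a) := by ring
      _ ≤ 3 * k * pr a a := Nat.mul_le_mul_left _ (hda a)

end Pool.Agent.Lib.MP_6b2d39_agVe
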