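import Pool.Agent.Lib.MP_6b2d39_agVn.OmOne

/-!
The class `3 c` of the curve for the exact theorem (better form of `OmE.lean`: no factor `k`).

PROOF. As `om_w` (`Vw/OmW.lean`) with `c j = a j / Λ`, `d = 3 c`, `a' = a - (3 A + 1) d` (`(3 A + 1) * 3 ≤ 12 A ≤ Λ / 2`, so `2 a' j ≥ a j`).
`sg d ≤ pr d d` as in `om_w`; `Λ pr a d = 3 Λ pr a c ≤ 3 pr a a` (`Λ c ≤ a`) and `64 A pr a d ≤ pr a a` because `192 A ≤ Λ`.
NEW: `pr d d = 9 pr c c ≥ 18 A`: `pr a a ≤ 61 Λ pr a c` (as in `om_w`) and in the same way `pr a c ≤ 61 Λ pr c c`: `a = Λ c + ρ`, `ρ j ≤ Λ`,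
`pr ρ c ≤ Λ ∑ gr c j ≤ 60 Λ ∑ c` (`gr c j ≤ 6 ∑ c`) and `∑ c ≤ pr c c` (`gr c i ≥ ∑ c` for `i ≠ 1, 9`; `gr c 1 + gr c 9 ≥ ∑ c`). So
`pr a a ≤ 3721 Λ ^ 2 pr c c`; with `7442 A Λ ^ 2 ≤ pr a a`: `2 A ≤ pr c c`.
-/

open Polynomial

set_option autoImplicit false

namespace Pool.Agent.Lib.MP_6b2d39_agVe

open Pool.Agent.Lib.MP_6b2d39_agVn

private theorem omF_sum10 (f : Fin 10 → ℕ) :
    ∑ i, f i = f 0 + f 1 + f 2 + f 3 + f 4 + f 5 + f 6 + f 7 + f 8 + f 9 := by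
  rw [Fin.sum_univ_castSucc, Fin.sum_univ_castSucc, Fin.sum_univ_eight]
  rfl

private theorem omF_gr (b : Fin 10 → ℕ) :
    gr b 0 = b 0 + b 1 + 2 * b 2 + 3 * (b 3 + b 4 + b 5 + b 6 + b 7 + b 8 + b 9) ∧
    gr b 1 = b 0 + b 2 + 2 * (b 3 + b 4 + b 5 + b 6 + b 7 + b 8 + b 9) ∧
    gr b 2 = 2 * b 0 + b 1 + 2 * b 2 + 4 * (b 3 + b 4 + b 5 + b 6 + b 7 + b 8 + b 9) ∧
    gr b 3 = 3 * b 0 + 2 * b 1 + 4 * b 2 + 6 * (b 3 + b 4 + b 5 + b 6 + b 7 + b 8 + b 9) ∧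
    gr b 4 = 3 * b 0 + 2 * b 1 + 4 * b 2 + 6 * b 3 +
      5 * (b 4 + b 5 + b 6 + b 7 + b 8 + b 9) ∧
    gr b 5 = 3 * b 0 + 2 * b 1 + 4 * b 2 + 6 * b 3 + 5 * b 4 +
      4 * (b 5 + b 6 + b 7 + b 8 + b 9) ∧
    gr b 6 = 3 * b 0 + 2 * b 1 + 4 * b 2 + 6 * b 3 + 5 * b 4 + 4 * b 5 +
      3 * (b 6 + b 7 + b 8 + b 9) ∧
    gr b 7 = 3 * b 0 + 2 * b 1 + 4 * b 2 + 6 * b 3 + 5 * b 4 + 4 * b 5 + 3 * b 6 +
      2 * (b 7 + b 8 + b 9) ∧
    gr b 8 = 3 * b 0 + 2 * b 1 + 4 * b 2 + 6 * b 3 + 5 * b 4 + 4 * b 5 + 3 * b 6 + 2 * b 7 +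
      (b 8 + b 9) ∧
    gr b 9 = 3 * b 0 + 2 * b 1 + 4 * b 2 + 6 * b 3 + 5 * b 4 + 4 * b 5 + 3 * b 6 + 2 * b 7 +
      b 8 := ⟨rfl, rfl, rfl, rfl, rfl, rfl, rfl, rfl, rfl, rfl⟩

private theorem omF_mono {a b : Fin 10 → ℕ} (c : Fin 10 → ℕ) (h : ∀ j, a j ≤ b j) :
    pr a c ≤ pr b c := by
  unfold pr
  exact Finset.sum_le_sum fun j _ => Nat.mul_le_mul_right _ (h j)

private theorem omF_sg {c : Fin 10 → ℕ} (h : ∃ i, i ≠ 1 ∧ 1 ≤ c i) : sg c ≤ 3 * pr c c := by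
  obtain ⟨g0, g1, g2, g3, g4, g5, g6, g7, g8, g9⟩ := omF_gr c
  have hg1 : 1 ≤ gr c 1 := by
    obtain ⟨i, hi, hc⟩ := h
    rw [g1]
    fin_cases i
    · change 1 ≤ c 0 at hc
      omega
    · exact absurd rfl hi
    · change 1 ≤ c 2 at hc
      omega
    · change 1 ≤ c 3 at hc
      omega
    · change 1 ≤ c 4 at hc
      omega
    · change 1 ≤ c 5 at hc
      omega
    · change 1 ≤ c 6 at hc
      omega
    · change 1 ≤ c 7 at hc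
      omega
    · change 1 ≤ c 8 at hc
      omega
    · change 1 ≤ c 9 at hc
      omega
  have key : ∀ (j : Fin 10) (σ : ℕ), (1 ≤ c j → σ ≤ 3 * gr c j) → σ * c j ≤ 3 * (c j * gr c j) := by
    intro j σ hj
    rcases Nat.eq_zero_or_pos (c j) with h0 | h0
    · rw [h0]
      simp
    · calc σ * c j ≤ (3 * gr c j) * c j := Nat.mul_le_mul_right _ (hj h0)
        _ = 3 * (c j * gr c j) := by ring
  have k0 := key 0 3 fun h0 => by rw [g0]; omega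
  have k1 := key 1 2 fun h0 => by omega
  have k2 := key 2 4 fun h0 => by rw [g2]; omega
  have k3 := key 3 6 fun h0 => by rw [g3]; omega
  have k4 := key 4 5 fun h0 => by rw [g4]; omega
  have k5 := key 5 4 fun h0 => by rw [g5]; omega
  have k6 := key 6 3 fun h0 => by rw [g6]; omega
  have k7 := key 7 2 fun h0 => by rw [g7]; omega
  have k8 := key 8 1 fun h0 => by rw [g8]; omega
  have hp : pr c c = c 0 * gr c 0 + c 1 * gr c 1 + c 2 * gr c 2 + c 3 * gr c 3 + c 4 * gr c 4 +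
      c 5 * gr c 5 + c 6 * gr c 6 + c 7 * gr c 7 + c 8 * gr c 8 + c 9 * gr c 9 := by
    unfold pr
    rw [omF_sum10]
  rw [hp]
  unfold sg
  omega

private theorem omF_sg2 {a b : Fin 10 → ℕ} (h : ∀ j, a j ≤ 2 * b j) : sg a ≤ 2 * sg b := by
  unfold sg
  have h0 := h 0
  have h1 := h 1
  have h2 := h 2
  have h3 := h 3
  have h4 := h 4
  have h5 := h 5
  have h6 := h 6
  have h7 := h 7
  have h8 := h 8
  omega

private theorem omF_up (b : Fin 10 → ℕ) (s : ℕ)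
    (hs : s = b 0 + b 1 + b 2 + b 3 + b 4 + b 5 + b 6 + b 7 + b 8 + b 9) (j : Fin 10) :
    gr b j ≤ 6 * s := by
  obtain ⟨g0, g1, g2, g3, g4, g5, g6, g7, g8, g9⟩ := omF_gr b
  fin_cases j
  · show gr b 0 ≤ _
    omega
  · show gr b 1 ≤ _
    omega
  · show gr b 2 ≤ _
    omega
  · show gr b 3 ≤ _
    omega
  · show gr b 4 ≤ _
    omega
  · show gr b 5 ≤ _
    omega
  · show gr b 6 ≤ _
    omega
  · show gr b 7 ≤ _
    omega
  · show gr b 8 ≤ _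
    omega
  · show gr b 9 ≤ _
    omega

private theorem omF_lo (b : Fin 10 → ℕ) (s : ℕ)
    (hs : s = b 0 + b 1 + b 2 + b 3 + b 4 + b 5 + b 6 + b 7 + b 8 + b 9)
    {j : Fin 10} (h1 : j ≠ 1) (h9 : j ≠ 9) : s ≤ gr b j := by
  obtain ⟨g0, g1, g2, g3, g4, g5, g6, g7, g8, g9⟩ := omF_gr b
  fin_cases j
  · show _ ≤ gr b 0
    omega
  · exact absurd rfl h1
  · show _ ≤ gr b 2
    omega
  · show _ ≤ gr b 3
    omega
  · show _ ≤ gr b 4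
    omega
  · show _ ≤ gr b 5
    omega
  · show _ ≤ gr b 6
    omega
  · show _ ≤ gr b 7
    omega
  · show _ ≤ gr b 8
    omega
  · exact absurd rfl h9

private theorem omF_lo' (b : Fin 10 → ℕ) (s : ℕ)
    (hs : s = b 0 + b 1 + b 2 + b 3 + b 4 + b 5 + b 6 + b 7 + b 8 + b 9) :
    s ≤ gr b 1 + gr b 9 := by
  obtain ⟨g0, g1, g2, g3, g4, g5, g6, g7, g8, g9⟩ := omF_gr b
  omega

/-- the sum of the coordinates of `b` is at most `pr c b` -/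
private theorem omF_sumle {b c : Fin 10 → ℕ} (s : ℕ)
    (hs : s = b 0 + b 1 + b 2 + b 3 + b 4 + b 5 + b 6 + b 7 + b 8 + b 9)
    (h : (∃ i, i ≠ 1 ∧ i ≠ 9 ∧ 1 ≤ c i) ∨ (1 ≤ c 1 ∧ 1 ≤ c 9)) : s ≤ pr c b := by
  have hp : pr c b = ∑ j : Fin 10, c j * gr b j := rfl
  rcases h with ⟨i, hi1, hi9, hi⟩ | ⟨k1, k9⟩
  · have e1 : c i * gr b i ≤ pr c b := by
      rw [hp]
      exact Finset.single_le_sum (f := fun j => c j * gr b j) (fun j _ => Nat.zero_le _)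
        (Finset.mem_univ i)
    have e2 : gr b i ≤ c i * gr b i := Nat.le_mul_of_pos_left _ hi
    exact (omF_lo b s hs hi1 hi9).trans (e2.trans e1)
  · have e1 : gr b 1 ≤ c 1 * gr b 1 := Nat.le_mul_of_pos_left _ k1
    have e2 : gr b 9 ≤ c 9 * gr b 9 := Nat.le_mul_of_pos_left _ k9
    have e3 : c 1 * gr b 1 + c 9 * gr b 9 ≤ pr c b := by
      rw [hp, omF_sum10]
      omega
    have e4 := omF_lo' b s hs
    omega

/-- `pr a b ≤ 61 L pr c b` if `a ≤ L c + L` and the sum of `b` is at most `pr c b` -/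
private theorem omF_pr {L : ℕ} {a b c : Fin 10 → ℕ} (hu : ∀ j, a j ≤ L * c j + L) (s : ℕ)
    (hs : s = b 0 + b 1 + b 2 + b 3 + b 4 + b 5 + b 6 + b 7 + b 8 + b 9)
    (hX : s ≤ pr c b) : pr a b ≤ 61 * L * pr c b := by
  have h1 : ∀ j, gr b j ≤ 6 * pr c b := fun j =>
    (omF_up b s hs j).trans (Nat.mul_le_mul_left 6 hX)
  have h2 : ∑ j : Fin 10, gr b j ≤ 60 * pr c b := by
    rw [omF_sum10]
    have k0 := h1 0
    have k1 := h1 1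
    have k2 := h1 2
    have k3 := h1 3
    have k4 := h1 4
    have k5 := h1 5
    have k6 := h1 6
    have k7 := h1 7
    have k8 := h1 8
    have k9 := h1 9
    omega
  have h3 : pr a b ≤ ∑ j : Fin 10, (L * (c j * gr b j) + L * gr b j) := by
    have h4 : pr a b = ∑ j : Fin 10, a j * gr b j := rfl
    rw [h4]
    refine Finset.sum_le_sum fun j _ => ?_
    calc a j * gr b j ≤ (L * c j + L) * gr b j := Nat.mul_le_mul_right _ (hu j)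
      _ = L * (c j * gr b j) + L * gr b j := by ring
  have h5 : ∑ j : Fin 10, (L * (c j * gr b j) + L * gr b j)
      = L * pr c b + L * ∑ j : Fin 10, gr b j := by
    rw [Finset.sum_add_distrib, ← Finset.mul_sum, ← Finset.mul_sum]
    rfl
  calc pr a b ≤ L * pr c b + L * ∑ j : Fin 10, gr b j := by rw [← h5]; exact h3
    _ ≤ L * pr c b + L * (60 * pr c b) := Nat.add_le_add_left (Nat.mul_le_mul_left L h2) _
    _ = 61 * L * pr c b := by ring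

theorem om_f {A Λ : ℕ} (hA : 1 ≤ A) (hΛ : 200 * A ≤ Λ)
    {a : Fin 10 → ℕ} (hs : 1 ≤ sg a)
    (hcase : (∃ i, i ≠ 1 ∧ i ≠ 9 ∧ Λ ≤ a i) ∨ (Λ ≤ a 1 ∧ Λ ≤ a 9))
    (hB : 7442 * A * Λ ^ 2 ≤ pr a a) :
    ∃ c a' : Fin 10 → ℕ, (∃ i, i ≠ 9 ∧ 1 ≤ c i) ∧ (∃ i, i ≠ 1 ∧ 1 ≤ c i) ∧
      a = a' + (3 * A + 1) • (3 • c) ∧ 1 ≤ sg a' ∧ 18 * A ≤ pr (3 • c) (3 • c) ∧
      sg (3 • c) ≤ pr (3 • c) (3 • c) ∧ 64 * A * pr a (3 • c) ≤ pr a a ∧
      Λ * pr a (3 • c) ≤ 3 * pr a a := by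
  have hL : 0 < Λ := by omega
  obtain ⟨d, hd⟩ : ∃ d : Fin 10 → ℕ, ∀ j, d j = a j / Λ := ⟨fun j => a j / Λ, fun _ => rfl⟩
  have hc1 : ∀ j, Λ * d j ≤ a j := by
    intro j
    rw [hd]
    exact Nat.mul_div_le (a j) Λ
  have hc2 : ∀ j, a j ≤ Λ * d j + Λ := by
    intro j
    rw [hd]
    have h1 := Nat.div_add_mod (a j) Λ
    have h2 := Nat.mod_lt (a j) hL
    omega
  have hge : ∀ j, Λ ≤ a j → 1 ≤ d j := by
    intro j hj
    rw [hd]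
    exact (Nat.one_le_div_iff hL).2 hj
  have hcd : (∃ i, i ≠ 1 ∧ i ≠ 9 ∧ 1 ≤ d i) ∨ (1 ≤ d 1 ∧ 1 ≤ d 9) := by
    rcases hcase with ⟨i, h1, h9, hi⟩ | ⟨h1, h9⟩
    · exact Or.inl ⟨i, h1, h9, hge i hi⟩
    · exact Or.inr ⟨hge 1 h1, hge 9 h9⟩
  have h9 : ∃ i, i ≠ 9 ∧ 1 ≤ d i := by
    rcases hcd with ⟨i, _, h9, hi⟩ | ⟨h1, _⟩
    · exact ⟨i, h9, hi⟩
    · exact ⟨1, by decide, h1⟩
  have h1 : ∃ i, i ≠ 1 ∧ 1 ≤ d i := by
    rcases hcd with ⟨i, h1, _, hi⟩ | ⟨_, h9⟩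
    · exact ⟨i, h1, hi⟩
    · exact ⟨9, by decide, h9⟩
  have hsg := omF_sg h1
  -- the lower bound of `pr d d`
  have e1 : pr a a ≤ 61 * Λ * pr d a := omF_pr hc2 _ rfl (omF_sumle _ rfl hcd)
  have e2 : pr a d ≤ 61 * Λ * pr d d := omF_pr hc2 _ rfl (omF_sumle _ rfl hcd)
  have e3 : pr a a ≤ 3721 * Λ ^ 2 * pr d d := by
    calc pr a a ≤ 61 * Λ * pr d a := e1
      _ = 61 * Λ * pr a d := by rw [pr_symm d a]
      _ ≤ 61 * Λ * (61 * Λ * pr d d) := Nat.mul_le_mul_left _ e2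
      _ = 3721 * Λ ^ 2 * pr d d := by ring
  have hpd : 2 * A ≤ pr d d := by
    have e4 : 3721 * Λ ^ 2 * (2 * A) ≤ 3721 * Λ ^ 2 * pr d d := by
      calc 3721 * Λ ^ 2 * (2 * A) = 7442 * A * Λ ^ 2 := by ring
        _ ≤ pr a a := hB
        _ ≤ _ := e3
    exact Nat.le_of_mul_le_mul_left e4 (by positivity)
  have hMc : ∀ j, 2 * ((3 * A + 1) * (3 * d j)) ≤ a j := by
    intro j
    have e1 : 2 * ((3 * A + 1) * (3 * d j)) ≤ Λ * d j := by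
      calc 2 * ((3 * A + 1) * (3 * d j)) = (18 * A + 6) * d j := by ring
        _ ≤ Λ * d j := Nat.mul_le_mul_right _ (by omega)
    exact e1.trans (hc1 j)
  have hda : ∀ b, Λ * pr d b ≤ pr a b := by
    intro b
    rw [← pr_smul]
    refine omF_mono b fun j => ?_
    simp only [Pi.smul_apply, smul_eq_mul]
    exact hc1 j
  have hpac : pr a (3 • d) = 3 * pr d a := by
    rw [pr_symm, pr_smul]
  have hpcc : pr (3 • d) (3 • d) = 9 * pr d d := by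
    rw [pr_smul, pr_symm, pr_smul]
    ring
  refine ⟨d, fun j => a j - (3 * A + 1) * (3 * d j), h9, h1, ?_, ?_, ?_, ?_, ?_, ?_⟩
  · funext j
    simp only [Pi.add_apply, Pi.smul_apply, smul_eq_mul]
    have := hMc j
    omega
  · have e1 : sg a ≤ 2 * sg (fun j => a j - (3 * A + 1) * (3 * d j)) := by
      refine omF_sg2 fun j => ?_
      have := hMc j
      show a j ≤ 2 * (a j - (3 * A + 1) * (3 * d j))
      omega
    omega
  · rw [hpcc]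
    omega
  · rw [hpcc, sg_smul]
    omega
  · rw [hpac]
    calc 64 * A * (3 * pr d a) = 192 * A * pr d a := by ring
      _ ≤ Λ * pr d a := Nat.mul_le_mul_right _ (by omega)
      _ ≤ pr a a := hda a
  · rw [hpac]
    calc Λ * (3 * pr d a) = 3 * (Λ * pr d a) := by ring
      _ ≤ 3 * pr a a := Nat.mul_le_mul_left _ (hda a)

end Pool.Agent.Lib.MP_6b2d39_agVe
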